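import Mathlib

-- part MP_57a821_nt.Series
section

/-! The inverse power series of a polynomial at a simple root, with weighted coefficient bounds. -/

set_option autoImplicit false

namespace Pool.Agent.MP_57a821_nt

open PowerSeries Finset

/-- Evaluation of an integer polynomial in a commutative ring. -/
noncomputable def ev {S : Type*} [CommRing S] (P : Polynomial ℤ) (y : S) : S :=
  P.eval₂ (Int.castRingHom S) y

theorem map_ev {S T : Type*} [CommRing S] [CommRing T] (φ : S →+* T) (P : Polynomial ℤ) (y : S) :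
    φ (ev P y) = ev P (φ y) := by
  unfold ev
  rw [Polynomial.hom_eval₂]
  congr 1
  exact RingHom.ext_int _ _

theorem ev_intCast {S : Type*} [CommRing S] (P : Polynomial ℤ) (x : ℤ) :
    ev P (x : S) = ((P.eval x : ℤ) : S) := by
  have := map_ev (Int.castRingHom S) P x
  simp only [eq_intCast] at this
  rw [← this]
  unfold ev
  congr 1

theorem ev_eq_eval_map {S : Type*} [CommRing S] (P : Polynomial ℤ) (y : S) :
    ev P y = (P.map (Int.castRingHom S)).eval y := by
  unfold ev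
  rw [Polynomial.eval_map]

variable {O : Type*} [CommRing O]

/-- Weighted partial sums of the coefficients are bounded by `B`. -/
def NB (ν : RingSeminorm O) (σ B : ℝ) (f : O⟦X⟧) : Prop :=
  ∀ m, ∑ j ∈ range m, ν (coeff j f) * σ ^ j ≤ B

theorem nu_sum_le (ν : RingSeminorm O) {α : Type*} (s : Finset α) (f : α → O) :
    ν (∑ a ∈ s, f a) ≤ ∑ a ∈ s, ν (f a) := by
  classical
  induction s using Finset.induction_on with
  | empty => simp
  | insert a s ha ih =>
    rw [sum_insert ha, sum_insert ha]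
    exact (map_add_le_add ν _ _).trans (by linarith)

theorem nu_natCast_mul (ν : RingSeminorm O) (n : ℕ) (x : O) : ν ((n : O) * x) ≤ n * ν x := by
  induction n with
  | zero => simp
  | succ n ih =>
    push_cast
    rw [add_mul, one_mul, add_mul, one_mul]
    exact (map_add_le_add ν _ _).trans (by linarith)

theorem nu_intCast_mul (ν : RingSeminorm O) (n : ℤ) (x : O) :
    ν ((n : O) * x) ≤ |(n : ℝ)| * ν x := by
  obtain ⟨m, rfl | rfl⟩ := Int.eq_nat_or_neg n
  · simpa using nu_natCast_mul ν m x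
  · have := nu_natCast_mul ν m x
    simp only [Int.cast_neg, Int.cast_natCast, neg_mul, map_neg_eq_map, abs_neg, Nat.abs_cast]
    exact this

namespace NB

variable {ν : RingSeminorm O} {σ B B' : ℝ} {f g : O⟦X⟧}

theorem nonneg (h : NB ν σ B f) : 0 ≤ B := by simpa using h 0

theorem mono (h : NB ν σ B f) (hB : B ≤ B') : NB ν σ B' f := fun m => (h m).trans hB

theorem add (hσ : 0 ≤ σ) (hf : NB ν σ B f) (hg : NB ν σ B' g) : NB ν σ (B + B') (f + g) := by
  intro m
  refine le_trans ?_ (add_le_add (hf m) (hg m))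
  rw [← sum_add_distrib]
  refine sum_le_sum fun j _ => ?_
  rw [map_add, ← add_mul]
  exact mul_le_mul_of_nonneg_right (map_add_le_add ν _ _) (pow_nonneg hσ _)

theorem neg (hf : NB ν σ B f) : NB ν σ B (-f) := by
  intro m
  simpa using hf m

theorem mul (hσ : 0 ≤ σ) (hf : NB ν σ B f) (hg : NB ν σ B' g) : NB ν σ (B * B') (f * g) := by
  intro m
  set a : ℕ → ℝ := fun j => ν (coeff j f) * σ ^ j with ha
  set b : ℕ → ℝ := fun j => ν (coeff j g) * σ ^ j with hb
  have ha0 : ∀ j, 0 ≤ a j := fun j => mul_nonneg (apply_nonneg ν _) (pow_nonneg hσ _)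
  have hb0 : ∀ j, 0 ≤ b j := fun j => mul_nonneg (apply_nonneg ν _) (pow_nonneg hσ _)
  have h1 : ∀ j, ν (coeff j (f * g)) * σ ^ j ≤ ∑ p ∈ antidiagonal j, a p.1 * b p.2 := by
    intro j
    rw [coeff_mul]
    refine le_trans (mul_le_mul_of_nonneg_right (nu_sum_le ν _ _) (pow_nonneg hσ _)) ?_
    rw [sum_mul]
    refine sum_le_sum fun p hp => ?_
    rw [HasAntidiagonal.mem_antidiagonal] at hp
    rw [← hp, pow_add]
    have := map_mul_le_mul ν (coeff p.1 f) (coeff p.2 g)
    calc ν (coeff p.1 f * coeff p.2 g) * (σ ^ p.1 * σ ^ p.2)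
        ≤ (ν (coeff p.1 f) * ν (coeff p.2 g)) * (σ ^ p.1 * σ ^ p.2) :=
          mul_le_mul_of_nonneg_right this (by positivity)
      _ = a p.1 * b p.2 := by simp only [ha, hb]; ring
  have h2 : ∑ j ∈ range m, ∑ p ∈ antidiagonal j, a p.1 * b p.2
      ≤ (∑ i ∈ range m, a i) * ∑ i ∈ range m, b i := by
    rw [sum_mul_sum, ← sum_product', ← sum_biUnion]
    · refine sum_le_sum_of_subset_of_nonneg ?_ fun p _ _ => mul_nonneg (ha0 _) (hb0 _)
      intro p hp
      simp only [mem_biUnion, mem_range, HasAntidiagonal.mem_antidiagonal] at hp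
      obtain ⟨j, hj, hp⟩ := hp
      simp only [mem_product, mem_range]
      omega
    · intro i _ j _ hij
      simp only [Function.onFun]
      rw [disjoint_left]
      intro p hp hq
      rw [HasAntidiagonal.mem_antidiagonal] at hp hq
      exact hij (hp.symm.trans hq)
  calc _ ≤ ∑ j ∈ range m, ∑ p ∈ antidiagonal j, a p.1 * b p.2 := sum_le_sum fun j _ => h1 j
    _ ≤ _ := h2
    _ ≤ B * B' := mul_le_mul (hf m) (hg m) (sum_nonneg fun j _ => hb0 j) hf.nonneg

theorem monomial (hσ : 0 ≤ σ) (n : ℕ) (a : O) :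
    NB ν σ (ν a * σ ^ n) (PowerSeries.monomial n a) := by
  intro m
  have h0 : 0 ≤ ν a * σ ^ n := mul_nonneg (apply_nonneg ν _) (pow_nonneg hσ _)
  calc ∑ j ∈ range m, ν (coeff j (PowerSeries.monomial n a)) * σ ^ j
      = ∑ j ∈ range m, if j = n then ν a * σ ^ n else 0 := by
        refine sum_congr rfl fun j _ => ?_
        rw [coeff_monomial]
        split_ifs with h
        · rw [h]
        · simp
    _ ≤ ν a * σ ^ n := by
        rw [sum_ite_eq']
        split_ifs
        · exact le_rfl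
        · exact h0

theorem C (hσ : 0 ≤ σ) (a : O) : NB ν σ (ν a) (PowerSeries.C a) := by
  have := monomial (ν := ν) hσ 0 a
  simpa using this

theorem X (hσ : 0 ≤ σ) : NB ν σ (ν 1 * σ) (PowerSeries.X : O⟦X⟧) := by
  have := monomial (ν := ν) hσ 1 (1 : O)
  rw [pow_one] at this
  exact this

theorem one (hσ : 0 ≤ σ) : NB ν σ (ν 1) (1 : O⟦X⟧) := by
  simpa using C (ν := ν) hσ 1

theorem zero : NB ν σ 0 (0 : O⟦X⟧) := by
  intro m; simp

theorem pow (hσ : 0 ≤ σ) (hf : NB ν σ B f) (n : ℕ) : NB ν σ (ν 1 * B ^ n) (f ^ n) := by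
  induction n with
  | zero => simpa using one hσ
  | succ n ih =>
    rw [pow_succ, pow_succ, ← mul_assoc]
    exact ih.mul hσ hf

theorem prod (hσ : 0 ≤ σ) {α : Type*} (s : Finset α) (F : α → O⟦X⟧)
    (h1 : ν 1 ≤ B) (h : ∀ a ∈ s, NB ν σ B (F a)) :
    NB ν σ (B ^ (s.card + 1)) (∏ a ∈ s, F a) := by
  classical
  induction s using Finset.induction_on with
  | empty => simpa using (one hσ).mono h1
  | insert a s ha ih =>
    rw [prod_insert ha, card_insert_of_notMem ha, pow_succ']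
    exact (h a (mem_insert_self _ _)).mul hσ (ih fun b hb => h b (mem_insert_of_mem hb))

theorem coeff_le (hσ : 0 < σ) (hf : NB ν σ B f) (j : ℕ) : ν (coeff j f) ≤ B * (σ⁻¹) ^ j := by
  have h := hf (j + 1)
  rw [sum_range_succ] at h
  have h0 : 0 ≤ ∑ i ∈ range j, ν (coeff i f) * σ ^ i :=
    sum_nonneg fun i _ => mul_nonneg (apply_nonneg ν _) (pow_nonneg hσ.le _)
  have h1 : ν (coeff j f) * σ ^ j ≤ B := by linarith
  rw [inv_pow, ← div_eq_mul_inv, le_div_iff₀ (pow_pos hσ _)]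
  exact h1

theorem rescale (hσ : 0 ≤ σ) (hf : NB ν σ B f) (q : ℤ) (Q : ℝ) (hQ : 0 < Q)
    (hq : |(q : ℝ)| ≤ Q) : NB ν (σ / Q) B (PowerSeries.rescale (q : O) f) := by
  intro m
  refine le_trans (sum_le_sum fun j _ => ?_) (hf m)
  rw [coeff_rescale]
  have h1 : ν ((q : O) ^ j * coeff j f) ≤ Q ^ j * ν (coeff j f) := by
    have := nu_intCast_mul ν (q ^ j) (coeff j f)
    push_cast at this
    refine this.trans (mul_le_mul_of_nonneg_right ?_ (apply_nonneg ν _))
    rw [abs_pow]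
    exact pow_le_pow_left₀ (abs_nonneg _) hq _
  calc ν ((q : O) ^ j * coeff j f) * (σ / Q) ^ j ≤ (Q ^ j * ν (coeff j f)) * (σ / Q) ^ j :=
        mul_le_mul_of_nonneg_right h1 (by positivity)
    _ = ν (coeff j f) * σ ^ j := by
        rw [div_pow]
        field_simp

end NB

theorem exists_NB_aeval (ν : RingSeminorm O) (h : Polynomial O) :
    ∃ H : ℝ, 0 ≤ H ∧ ∀ σ : ℝ, 0 ≤ σ → ∀ f : O⟦X⟧, NB ν σ 1 f →
      NB ν σ H (Polynomial.aeval f h) := by
  induction h using Polynomial.induction_on' with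
  | add p q hp hq =>
    obtain ⟨H₁, h₁, hp⟩ := hp
    obtain ⟨H₂, h₂, hq⟩ := hq
    refine ⟨H₁ + H₂, by positivity, fun σ hσ f hf => ?_⟩
    rw [map_add]
    exact (hp σ hσ f hf).add hσ (hq σ hσ f hf)
  | monomial n a =>
    refine ⟨ν a * ν 1, mul_nonneg (apply_nonneg ν _) (apply_nonneg ν _), fun σ hσ f hf => ?_⟩
    rw [Polynomial.aeval_monomial]
    have := (NB.C (ν := ν) hσ a).mul hσ (hf.pow hσ n)
    simpa using this

/-- One step of the fixed point iteration. -/
noncomputable def step (h : Polynomial O) (f : O⟦X⟧) : O⟦X⟧ :=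
  X - f ^ 2 * Polynomial.aeval f h

theorem step_contract (h : Polynomial O) (f g : O⟦X⟧) (hf : X ∣ f) (hg : X ∣ g) (m : ℕ)
    (hfg : X ^ m ∣ f - g) : X ^ (m + 1) ∣ step h f - step h g := by
  have h1 : f - g ∣ Polynomial.aeval f h - Polynomial.aeval g h := by
    have := Polynomial.sub_dvd_eval_sub f g (h.map (algebraMap O O⟦X⟧))
    rwa [Polynomial.eval_map_algebraMap, Polynomial.eval_map_algebraMap] at this
  have e : step h f - step h g = -((f - g) * (f + g) * Polynomial.aeval f h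
      + (Polynomial.aeval f h - Polynomial.aeval g h) * (g * g)) := by
    unfold step; ring
  rw [e, dvd_neg, pow_succ]
  refine dvd_add (Dvd.dvd.mul_right (mul_dvd_mul hfg (dvd_add hf hg)) _) ?_
  exact mul_dvd_mul (hfg.trans h1) (Dvd.dvd.mul_right hg _)

theorem X_dvd_step (h : Polynomial O) (f : O⟦X⟧) (hf : X ∣ f) : X ∣ step h f := by
  unfold step
  exact dvd_sub dvd_rfl (Dvd.dvd.mul_right (dvd_pow hf two_ne_zero) _)

theorem exists_zeta (ν : RingSeminorm O) (h : Polynomial O) :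
    ∃ (ζ : O⟦X⟧) (σ : ℝ), 0 < σ ∧ σ ≤ 1 ∧ X ∣ ζ ∧ ζ + ζ ^ 2 * Polynomial.aeval ζ h = X ∧
      NB ν σ 1 ζ := by
  obtain ⟨H, hH, hh⟩ := exists_NB_aeval ν h
  have hν : 0 ≤ ν 1 := apply_nonneg ν _
  set σ : ℝ := 1 / (4 * (ν 1 + 1) * (H + 1)) with hσdef
  have hσ : 0 < σ := by positivity
  set η : ℝ := ν 1 * σ with hη
  have hη0 : 0 ≤ η := by positivity
  have hηH : 4 * η * (H + 1) ≤ 1 := by
    have : 4 * η * (H + 1) = ν 1 / (ν 1 + 1) := by
      rw [hη, hσdef]; field_simp
    rw [this, div_le_one (by positivity)]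
    linarith
  have hσ1 : σ ≤ 1 := by
    rw [hσdef, div_le_one (by positivity)]
    nlinarith [mul_nonneg hν hH]
  set z : ℕ → O⟦X⟧ := fun m => (step h)^[m] 0 with hz
  have hzs : ∀ m, z (m + 1) = step h (z m) := fun m => Function.iterate_succ_apply' _ _ _
  have hzX : ∀ m, X ∣ z m := by
    intro m
    induction m with
    | zero => simp [hz]
    | succ m ih => rw [hzs]; exact X_dvd_step h _ ih
  have hzc : ∀ m, X ^ m ∣ z (m + 1) - z m := by
    intro m
    induction m with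
    | zero => simp
    | succ m ih =>
      rw [hzs (m + 1)]
      conv => rhs; rhs; rw [hzs m]
      exact step_contract h _ _ (hzX _) (hzX _) m ih
  have hzc' : ∀ m t, X ^ m ∣ z (m + t) - z m := by
    intro m t
    induction t with
    | zero => simp
    | succ t ih =>
      have : z (m + (t + 1)) - z m = (z (m + t + 1) - z (m + t)) + (z (m + t) - z m) := by
        rw [← add_assoc]; ring
      rw [this]
      exact dvd_add ((pow_dvd_pow _ (Nat.le_add_right m t)).trans (hzc _)) ih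
  have hzB : ∀ m, NB ν σ (2 * η) (z m) := by
    intro m
    induction m with
    | zero => simpa [hz] using (NB.zero (ν := ν) (σ := σ)).mono (by positivity)
    | succ m ih =>
      rw [hzs, step, sub_eq_add_neg, sq]
      have h1 : NB ν σ 1 (z m) := ih.mono (by nlinarith)
      refine ((NB.X hσ.le).add hσ.le
        (((ih.mul hσ.le ih).mul hσ.le (hh σ hσ.le _ h1)).neg)).mono ?_
      rw [← hη]
      nlinarith [mul_nonneg hη0 hH, mul_nonneg hη0 hη0]
  set ζ : O⟦X⟧ := PowerSeries.mk fun j => coeff j (z (j + 1)) with hζ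
  have hζz : ∀ m, X ^ m ∣ ζ - z m := by
    intro m
    rw [X_pow_dvd_iff]
    intro j hj
    rw [map_sub, hζ, coeff_mk]
    obtain ⟨t, rfl⟩ : ∃ t, m = j + 1 + t := ⟨m - (j + 1), by omega⟩
    have := X_pow_dvd_iff.1 (hzc' (j + 1) t) j (by omega)
    rw [map_sub] at this
    linear_combination -this
  have hζX : X ∣ ζ := by
    have h1 := hζz 1
    rw [pow_one] at h1
    have := dvd_add h1 (hzX 1)
    simpa using this
  refine ⟨ζ, σ, hσ, hσ1, hζX, ?_, ?_⟩
  · have : step h ζ = ζ := by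
      ext j
      have h1 := step_contract h ζ (z j) hζX (hzX j) j (hζz j)
      rw [← hzs] at h1
      have h2 := dvd_sub h1 (hζz (j + 1))
      have h3 := X_pow_dvd_iff.1 h2 j (by omega)
      have e : step h ζ - z (j + 1) - (ζ - z (j + 1)) = step h ζ - ζ := by ring
      rw [e, map_sub, sub_eq_zero] at h3
      exact h3
    unfold step at this
    linear_combination -this
  · intro m
    refine le_trans (le_of_eq ?_) (((hzB m).mono (B' := 1) (by nlinarith)) m)
    refine sum_congr rfl fun j hj => ?_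
    have := X_pow_dvd_iff.1 (hζz m) j (mem_range.1 hj)
    rw [map_sub, sub_eq_zero] at this
    rw [this]

/-- The inverse series of `P` at a root `ρ`, with `g = P'(ρ)`. -/
theorem exists_psi (ν : RingSeminorm O) (P : Polynomial ℤ) (ρ : O) (hρ : ev P ρ = 0) :
    ∃ (ψ ω : O⟦X⟧) (σ B : ℝ), 0 < σ ∧ σ ≤ 1 ∧ 1 ≤ B ∧ ν 1 ≤ B ∧
      ψ = C ρ + X * ω ∧ constantCoeff ω = ev P.derivative ρ ∧
      ev P ψ = C (ev P.derivative ρ ^ 2) * X ∧ NB ν σ B ψ := by
  set g := ev P.derivative ρ with hg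
  set PO := P.map (Int.castRingHom O) with hPO
  set T := Polynomial.taylor ρ PO with hT
  have hT0 : T.coeff 0 = 0 := by
    rw [hT, Polynomial.taylor_coeff_zero, ← ev_eq_eval_map, hρ]
  have hT1 : T.coeff 1 = g := by
    rw [hT, Polynomial.taylor_coeff_one, hPO, Polynomial.derivative_map, ← ev_eq_eval_map]
  obtain ⟨T2, hT2⟩ : Polynomial.X ^ 2 ∣ T - Polynomial.C g * Polynomial.X := by
    rw [Polynomial.X_pow_dvd_iff]
    intro j hj
    interval_cases j
    · simp [hT0]
    · simp [hT1]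
  obtain ⟨ζ, σ, hσ, hσ1, hζX, hζ, hNB⟩ :=
    exists_zeta ν (T2.comp (Polynomial.C g * Polynomial.X))
  obtain ⟨ζ', hζ'⟩ := hζX
  refine ⟨C ρ + C g * ζ, C g * ζ', σ, ν ρ + ν g + ν 1 + 1, hσ, hσ1, ?_, ?_, ?_, ?_, ?_, ?_⟩
  · have := apply_nonneg ν ρ; have := apply_nonneg ν g; have := apply_nonneg ν 1; linarith
  · have := apply_nonneg ν ρ; have := apply_nonneg ν g; linarith
  · rw [hζ']; ring
  · have h1 : X * (ζ' + X * (ζ' ^ 2 * Polynomial.aeval ζ (T2.comp (Polynomial.C g * Polynomial.X))))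
        = X * 1 := by
      rw [mul_one]
      conv_rhs => rw [← hζ]
      set A := Polynomial.aeval ζ (T2.comp (Polynomial.C g * Polynomial.X))
      rw [hζ']; ring
    have h2 := congrArg constantCoeff (X_mul_cancel h1)
    simp only [map_add, map_mul, constantCoeff_X, zero_mul, add_zero, map_one] at h2
    simp [h2]
  · have e1 : ev P (C ρ + C g * ζ) = Polynomial.aeval (C g * ζ) T := by
      rw [hT, Polynomial.taylor_apply, Polynomial.aeval_comp]
      simp only [map_add, Polynomial.aeval_X, Polynomial.aeval_C]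
      unfold ev
      rw [Polynomial.aeval_def, hPO, Polynomial.eval₂_map, add_comm]
      congr 1
      exact RingHom.ext_int _ _
    have e2 : T = Polynomial.C g * Polynomial.X + Polynomial.X ^ 2 * T2 := by
      rw [← hT2]; ring
    rw [e1, e2]
    rw [Polynomial.aeval_comp] at hζ
    simp only [map_add, map_mul, map_pow, Polynomial.aeval_X, Polynomial.aeval_C] at hζ ⊢
    have e3 : (algebraMap O O⟦X⟧) g = C g := rfl
    rw [e3] at hζ ⊢
    linear_combination (C g) ^ 2 * hζ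
  · refine ((NB.C hσ.le ρ).add hσ.le ((NB.C hσ.le g).mul hσ.le hNB)).mono ?_
    have := apply_nonneg ν 1
    linarith

end Pool.Agent.MP_57a821_nt

end

-- part MP_57a821_nt.Indep
section

/-! Linear independence of the monomials in the rescaled inverse series. -/

set_option autoImplicit false

namespace Pool.Agent.MP_57a821_nt

open PowerSeries Finset

section Lam

variable {Λ : Type*} [CommRing Λ]

theorem transc (ω : Λ⟦X⟧) (hω : IsUnit (constantCoeff ω)) (H : Polynomial Λ)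
    (h : Polynomial.aeval (X * ω) H = 0) : H = 0 := by
  have hu : IsUnit ω := isUnit_iff_constantCoeff.2 hω
  have key : ∀ j, Polynomial.X ^ j ∣ H := by
    intro j
    induction j with
    | zero => simp
    | succ j ih =>
      obtain ⟨H', rfl⟩ := ih
      rw [map_mul, map_pow, Polynomial.aeval_X, mul_pow, mul_assoc] at h
      have h1 : ω ^ j * Polynomial.aeval (X * ω) H' = 0 :=
        X_pow_mul_cancel (k := j) (by rw [h, mul_zero])
      have h2 : Polynomial.aeval (X * ω) H' = 0 := (hu.pow j).mul_right_eq_zero.1 h1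
      have h3 := congrArg constantCoeff h2
      rw [Polynomial.aeval_def, Polynomial.hom_eval₂] at h3
      simp only [map_mul, constantCoeff_X, zero_mul, map_zero, Polynomial.eval₂_at_zero] at h3
      have h4 : H'.coeff 0 = 0 := by simpa using h3
      rw [pow_succ]
      exact mul_dvd_mul_left _ (Polynomial.X_dvd_iff.2 h4)
  ext j
  exact Polynomial.X_pow_dvd_iff.1 (key (j + 1)) j (by omega)

theorem free_basis (P : Polynomial Λ) (hP : P.Monic) (d : ℕ) (hd : P.degree = d) (γ : Λ)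
    (hγ : IsUnit γ) (a : Fin d → Polynomial Λ)
    (h : ∑ j, (a j).comp (Polynomial.C γ * P) * Polynomial.X ^ (j : ℕ) = 0) : ∀ j, a j = 0 := by
  have key : ∀ m, ∀ a : Fin d → Polynomial Λ,
      ∑ j, (a j).comp (Polynomial.C γ * P) * Polynomial.X ^ (j : ℕ) = 0 →
      ∀ j, Polynomial.X ^ m ∣ a j := by
    intro m
    induction m with
    | zero => intro a _ j; simp
    | succ m ih =>
      intro a h
      have hsplit : ∀ j, a j = Polynomial.X * (a j).divX + Polynomial.C ((a j).coeff 0) := by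
        intro j
        rw [mul_comm]
        exact (Polynomial.divX_mul_X_add _).symm
      have h1 : Polynomial.C γ * P * ∑ j, ((a j).divX).comp (Polynomial.C γ * P) *
          Polynomial.X ^ (j : ℕ) + ∑ j, Polynomial.C ((a j).coeff 0) * Polynomial.X ^ (j : ℕ)
          = 0 := by
        rw [← h, mul_sum, ← sum_add_distrib]
        refine sum_congr rfl fun j _ => ?_
        conv_rhs => rw [hsplit j]
        simp only [Polynomial.add_comp, Polynomial.mul_comp, Polynomial.X_comp, Polynomial.C_comp]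
        ring
      set T := ∑ j : Fin d, Polynomial.C ((a j).coeff 0) * Polynomial.X ^ (j : ℕ) with hT
      have hT0 : T = 0 := by
        by_contra hne
        refine hP.not_dvd_of_degree_lt hne ?_ ?_
        · rw [hd]; exact Polynomial.degree_sum_fin_lt _
        · refine ⟨-(Polynomial.C γ * ∑ j, ((a j).divX).comp (Polynomial.C γ * P) *
            Polynomial.X ^ (j : ℕ)), ?_⟩
          linear_combination h1
      have hc : ∀ j, (a j).coeff 0 = 0 := by
        intro j
        have := congrArg (fun q => Polynomial.coeff q j) hT0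
        simp only [hT, Polynomial.finsetSum_coeff, Polynomial.coeff_C_mul_X_pow,
          Polynomial.coeff_zero] at this
        rw [sum_eq_single j] at this
        · simpa using this
        · intro b _ hb
          rw [if_neg]
          exact fun e => hb (Fin.ext e.symm)
        · simp
      rw [hT0, add_zero, mul_assoc] at h1
      have h2 := (hγ.map Polynomial.C).mul_right_eq_zero.1 h1
      have h3 := hP.mul_right_eq_zero_iff.1 h2
      intro j
      rw [hsplit j, hc j, map_zero, add_zero, pow_succ']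
      exact mul_dvd_mul_left _ (ih _ h3 j)
  intro j
  ext m
  exact Polynomial.X_pow_dvd_iff.1 (key (m + 1) a h j) m (by omega)

theorem poly_indep (P : Polynomial ℤ) (hP : P.Monic) (ρ g : Λ) (hg : IsUnit g) (ψ ω : Λ⟦X⟧)
    (hψ : ψ = C ρ + X * ω) (hω : constantCoeff ω = g) (hev : ev P ψ = C (g ^ 2) * X)
    (a : Fin P.natDegree → Polynomial Λ)
    (h : ∑ j, (a j : Λ⟦X⟧) * ψ ^ (j : ℕ) = 0) : ∀ j, a j = 0 := by
  rcases subsingleton_or_nontrivial Λ with hs | hn
  · intro j; exact Subsingleton.elim _ _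
  obtain ⟨γ, hγ⟩ := (hg.pow 2).exists_left_inv
  have hγu : IsUnit γ := IsUnit.of_mul_eq_one _ hγ
  set PL := P.map (Int.castRingHom Λ) with hPL
  have hPLm : PL.Monic := hP.map _
  have hdeg : PL.degree = P.natDegree := by
    rw [Polynomial.degree_eq_natDegree hPLm.ne_zero, hPL, hP.natDegree_map]
  refine free_basis PL hPLm _ hdeg γ hγu a ?_
  set H := ∑ j, (a j).comp (Polynomial.C γ * PL) * Polynomial.X ^ (j : ℕ) with hH
  have h1 : Polynomial.aeval ψ PL = ev P ψ := by
    unfold ev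
    rw [Polynomial.aeval_def, hPL, Polynomial.eval₂_map]
    congr 1
    exact RingHom.ext_int _ _
  have h2 : Polynomial.aeval ψ H = 0 := by
    rw [hH, map_sum, ← h]
    refine sum_congr rfl fun j _ => ?_
    rw [map_mul, map_pow, Polynomial.aeval_X, Polynomial.aeval_comp, map_mul, Polynomial.aeval_C,
      h1, hev]
    have e3 : (algebraMap Λ Λ⟦X⟧) γ = C γ := rfl
    rw [e3, ← mul_assoc, ← map_mul, hγ, map_one, one_mul, Polynomial.aeval_def]
    congr 1
    exact Polynomial.eval₂_C_X_eq_coe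
  have h3 : Polynomial.taylor ρ H = 0 := by
    refine transc ω (hω ▸ hg) _ ?_
    rw [Polynomial.taylor_apply, Polynomial.aeval_comp]
    simp only [map_add, Polynomial.aeval_X, Polynomial.aeval_C]
    have e3 : (algebraMap Λ Λ⟦X⟧) ρ = C ρ := rfl
    rw [e3, add_comm, ← hψ, h2]
  exact Polynomial.taylor_injective ρ (by rw [h3, map_zero])

end Lam

variable {O : Type*} [CommRing O]

theorem step_mod (P : Polynomial ℤ) (hP : P.Monic) (ρ g : O) (D p : ℤ) (hgD : g ∣ (D : O))
    (hp : IsCoprime p D) (ψ ω : O⟦X⟧)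
    (hψ : ψ = C ρ + X * ω) (hω : constantCoeff ω = g) (hev : ev P ψ = C (g ^ 2) * X)
    (A : Fin P.natDegree → O⟦X⟧) (m₀ : ℕ) (hA : ∀ j m, m₀ ≤ m → (p : O) ∣ coeff m (A j))
    (h : ∑ j, A j * ψ ^ (j : ℕ) = 0) : ∀ j m, (p : O) ∣ coeff m (A j) := by
  set φ := Ideal.Quotient.mk (Ideal.span {(p : O)}) with hφ
  have hφ0 : ∀ x, φ x = 0 ↔ (p : O) ∣ x := fun x => by
    rw [hφ, Ideal.Quotient.eq_zero_iff_mem, Ideal.mem_span_singleton]
  have hgu : IsUnit (φ g) := by
    obtain ⟨u, v, huv⟩ := hp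
    obtain ⟨g', hg'⟩ := hgD
    have h1 := congrArg (fun z : ℤ => φ (z : O)) huv
    simp only [Int.cast_add, Int.cast_mul, map_add, map_mul, Int.cast_one, map_one] at h1
    rw [(hφ0 _).2 dvd_rfl, mul_zero, zero_add, hg', map_mul] at h1
    exact IsUnit.of_mul_eq_one (φ g' * φ (v : O)) (by linear_combination h1)
  have hcoe : ∀ j, ((trunc m₀ (PowerSeries.map φ (A j)) : Polynomial _) : PowerSeries _)
      = PowerSeries.map φ (A j) := by
    intro j
    ext m
    rw [Polynomial.coeff_coe, coeff_trunc]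
    split_ifs with hm
    · rfl
    · rw [coeff_map, (hφ0 _).2 (hA j m (by omega))]
  have hz := poly_indep P hP (φ ρ) (φ g) hgu (PowerSeries.map φ ψ) (PowerSeries.map φ ω)
    (by rw [hψ]; simp)
    (by rw [← hω, ← coeff_zero_eq_constantCoeff_apply, coeff_map,
      coeff_zero_eq_constantCoeff_apply])
    (by rw [← map_ev, hev]; simp) (fun j => trunc m₀ (PowerSeries.map φ (A j)))
    (by
      have := congrArg (PowerSeries.map φ) h
      rw [map_sum, map_zero] at this
      rw [← this]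
      refine sum_congr rfl fun j _ => ?_
      rw [hcoe, map_mul, map_pow])
  intro j m
  rw [← hφ0, ← coeff_map, ← hcoe j, hz j]
  simp

theorem rescale_indep [IsDomain O] (P : Polynomial ℤ) (hP : P.Monic) (ρ g : O) (D p : ℤ)
    (hgD : g ∣ (D : O)) (hp : IsCoprime p D) (hp0 : (p : O) ≠ 0)
    (hsep : ∀ x : O, (∀ t : ℕ, (p : O) ^ t ∣ x) → x = 0) (ψ ω : O⟦X⟧)
    (hψ : ψ = C ρ + X * ω) (hω : constantCoeff ω = g) (hev : ev P ψ = C (g ^ 2) * X)
    (A : Fin P.natDegree → O⟦X⟧) (hA : ∀ j m, (p : O) ^ m ∣ coeff m (A j))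
    (h : ∑ j, A j * ψ ^ (j : ℕ) = 0) : ∀ j, A j = 0 := by
  have key : ∀ t : ℕ, ∀ j m, (p : O) ^ t ∣ coeff m (A j) := by
    intro t
    induction t with
    | zero => intro j m; simp
    | succ t ih =>
      choose c hc using ih
      have hAc : ∀ j, A j = C ((p : O) ^ t) * PowerSeries.mk (c j) := by
        intro j
        ext m
        rw [coeff_C_mul, coeff_mk, hc]
      have h1 : ∑ j, PowerSeries.mk (c j) * ψ ^ (j : ℕ) = 0 := by
        have h2 : C ((p : O) ^ t) * ∑ j, PowerSeries.mk (c j) * ψ ^ (j : ℕ) = 0 := by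
          rw [← h, mul_sum]
          refine sum_congr rfl fun j _ => ?_
          rw [hAc j, mul_assoc]
        rcases mul_eq_zero.1 h2 with h3 | h3
        · exfalso
          have := congrArg constantCoeff h3
          simp only [map_pow, constantCoeff_C, map_zero] at this
          exact pow_ne_zero t hp0 this
        · exact h3
      have h2 := step_mod P hP ρ g D p hgD hp ψ ω hψ hω hev (fun j => PowerSeries.mk (c j)) (t + 1)
        (by
          intro j m hm
          rw [coeff_mk]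
          have h3 : (p : O) ^ t * p ∣ (p : O) ^ t * c j m := by
            rw [← hc, ← pow_succ]
            exact (pow_dvd_pow _ hm).trans (hA j m)
          exact (mul_dvd_mul_iff_left (pow_ne_zero t hp0)).1 h3) h1
      intro j m
      rw [hc, pow_succ]
      have := h2 j m
      rw [coeff_mk] at this
      exact mul_dvd_mul_left _ this
  intro j
  ext m
  exact hsep _ fun t => key t j m

/-- The monomial in the rescaled series. -/
noncomputable def mono (ψ : O⟦X⟧) {k d : ℕ} (Q : Fin k → ℤ) (a : Fin k → Fin d) : O⟦X⟧ :=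
  ∏ i, rescale (Q i : O) ψ ^ (a i : ℕ)

theorem rescale_C' (q c : O) : rescale q (C c) = C c := by
  ext m
  rw [coeff_rescale, coeff_C]
  split_ifs with h
  · rw [h, pow_zero, one_mul]
  · rw [mul_zero]

theorem mono_indep [IsDomain O] [CharZero O] (P : Polynomial ℤ) (hP : P.Monic) (ρ g : O) (D : ℤ)
    (hgD : g ∣ (D : O))
    (hsep : ∀ p : ℕ, p.Prime → ∀ x : O, (∀ t : ℕ, (p : O) ^ t ∣ x) → x = 0) (ψ ω : O⟦X⟧)
    (hψ : ψ = C ρ + X * ω) (hω : constantCoeff ω = g) (hev : ev P ψ = C (g ^ 2) * X) (k : ℕ) :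
    ∀ Q : Fin k → ℤ, (∀ i, Q i ≠ 0) →
      (∀ i, ∃ p : ℕ, p.Prime ∧ ¬ (p : ℤ) ∣ D ∧ ∀ j, i < j → Q i * p ∣ Q j) →
      ∀ c : (Fin k → Fin P.natDegree) → O, ∑ a, C (c a) * mono ψ Q a = 0 → ∀ a, c a = 0 := by
  induction k with
  | zero =>
    intro Q _ _ c h a
    rw [Fintype.sum_subsingleton _ a] at h
    have := congrArg constantCoeff h
    simpa [mono] using this
  | succ k ih =>
    intro Q hQ hch c h
    obtain ⟨p, hp, hpD, hdiv⟩ := hch 0
    have hdiv' : ∀ i : Fin k, Q 0 * p ∣ Q i.succ := fun i => hdiv _ (Fin.succ_pos i)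
    choose Q' hQ' using hdiv'
    set Bf : Fin P.natDegree → O⟦X⟧ := fun j =>
      ∑ a : Fin k → Fin P.natDegree, C (c (Fin.cons j a)) * mono ψ Q' a with hBf
    have hres : ∀ j, rescale (Q 0 : O) (rescale ((p : ℤ) : O) (Bf j)) =
        ∑ a : Fin k → Fin P.natDegree, C (c (Fin.cons j a)) * mono ψ (fun i => Q i.succ) a := by
      intro j
      rw [rescale_rescale, hBf]
      simp only [map_sum, map_mul, rescale_C', mono, map_prod, map_pow, rescale_rescale]
      refine sum_congr rfl fun a _ => ?_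
      congr 1
      refine prod_congr rfl fun i _ => ?_
      rw [hQ' i]
      push_cast
      ring_nf
    have h1 : rescale (Q 0 : O) (∑ j, rescale ((p : ℤ) : O) (Bf j) * ψ ^ (j : ℕ)) = 0 := by
      rw [← h, map_sum, ← (Fin.consEquiv fun _ => Fin P.natDegree).sum_comp,
        Fintype.sum_prod_type]
      refine sum_congr rfl fun j _ => ?_
      rw [map_mul, hres, map_pow, sum_mul]
      refine sum_congr rfl fun a _ => ?_
      have e : (Fin.consEquiv fun _ => Fin P.natDegree) (j, a) = Fin.cons j a := rfl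
      rw [e]
      simp only [mono, Fin.prod_univ_succ, Fin.cons_zero, Fin.cons_succ]
      ring
    have hQ0 : (Q 0 : O) ≠ 0 := Int.cast_ne_zero.2 (hQ 0)
    have h2 : ∑ j, rescale ((p : ℤ) : O) (Bf j) * ψ ^ (j : ℕ) = 0 :=
      rescale_injective hQ0 (by rw [h1, map_zero])
    have hp0 : ((p : ℤ) : O) ≠ 0 := Int.cast_ne_zero.2 (Int.natCast_ne_zero.2 hp.ne_zero)
    have hcop : IsCoprime (p : ℤ) D :=
      (Nat.prime_iff_prime_int.1 hp).irreducible.coprime_iff_not_dvd.2 hpD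
    have h3 := rescale_indep P hP ρ g D p hgD hcop hp0
      (by simpa using hsep p hp) ψ ω hψ hω hev (fun j => rescale ((p : ℤ) : O) (Bf j))
      (by intro j m; rw [coeff_rescale]; exact Dvd.intro _ rfl) h2
    intro a
    have h4 := hres (a 0)
    rw [h3 (a 0), map_zero] at h4
    have h5 := ih (fun i => Q i.succ) (fun i => hQ _)
      (by
        intro i
        obtain ⟨q, hq, hqD, hq'⟩ := hch i.succ
        exact ⟨q, hq, hqD, fun j hj => hq' _ (Fin.succ_lt_succ_iff.2 hj)⟩)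
      (fun a' => c (Fin.cons (a 0) a')) h4.symm (Fin.tail a)
    rwa [Fin.cons_self_tail] at h5

end Pool.Agent.MP_57a821_nt

end

-- part MP_57a821_nt.Zero
section

/-! A zero estimate by a dimension count. -/

set_option autoImplicit false

namespace Pool.Agent.MP_57a821_nt

open PowerSeries Finset Submodule

variable {K : Type*} [Field K] {k d : ℕ}

/-- Monomials in a family of series. -/
noncomputable def mon (ψ : Fin k → K⟦X⟧) (a : Fin k → Fin d) : K⟦X⟧ := ∏ i, ψ i ^ (a i : ℕ)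

/-- The span of `X^j` times the monomials, for `j < m`. -/
noncomputable def U (ψ : Fin k → K⟦X⟧) (d m : ℕ) : Submodule K K⟦X⟧ :=
  span K (Set.range fun t : Fin m × (Fin k → Fin d) => X ^ (t.1 : ℕ) * mon ψ t.2)

instance (ψ : Fin k → K⟦X⟧) (d m : ℕ) : Module.Finite K (U ψ d m) :=
  Module.Finite.span_of_finite K (Set.finite_range _)

theorem mem_U (ψ : Fin k → K⟦X⟧) {m j : ℕ} (hj : j < m) (a : Fin k → Fin d) :
    X ^ j * mon ψ a ∈ U ψ d m :=
  subset_span ⟨(⟨j, hj⟩, a), rfl⟩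

theorem X_pow_mul_mem_U (ψ : Fin k → K⟦X⟧) {m j n : ℕ} (h : j + m ≤ n) {f : K⟦X⟧}
    (hf : f ∈ U ψ d m) : X ^ j * f ∈ U ψ d n := by
  induction hf using span_induction with
  | mem x hx =>
    obtain ⟨⟨i, a⟩, rfl⟩ := hx
    simp only
    rw [← mul_assoc, ← pow_add]
    exact mem_U ψ (by have := i.2; omega) a
  | zero => simp
  | add x y _ _ hx hy => rw [mul_add]; exact add_mem hx hy
  | smul c x _ hx => rw [mul_smul_comm]; exact smul_mem _ _ hx

theorem finrank_U_add (ψ : Fin k → K⟦X⟧) (m t : ℕ) :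
    Module.finrank K (U ψ d (m + t)) ≤ Module.finrank K (U ψ d m) + t * d ^ k := by
  set W := span K (Set.range fun s : Fin t × (Fin k → Fin d) => X ^ (m + s.1 : ℕ) * mon ψ s.2)
    with hW
  have : Module.Finite K W := Module.Finite.span_of_finite K (Set.finite_range _)
  have h1 : U ψ d (m + t) ≤ U ψ d m ⊔ W := by
    rw [U, span_le]
    rintro _ ⟨⟨i, a⟩, rfl⟩
    by_cases hi : (i : ℕ) < m
    · exact mem_sup_left (mem_U ψ hi a)
    · refine mem_sup_right (subset_span ⟨(⟨i - m, by have := i.2; omega⟩, a), ?_⟩)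
      simp only
      congr 2
      omega
  have h2 : Module.finrank K W ≤ t * d ^ k := by
    have := finrank_range_le_card (R := K)
      (fun s : Fin t × (Fin k → Fin d) => X ^ (m + s.1 : ℕ) * mon ψ s.2)
    simpa [Set.finrank] using this
  calc _ ≤ Module.finrank K (U ψ d m ⊔ W : Submodule K K⟦X⟧) := Submodule.finrank_mono h1
    _ ≤ _ := (Submodule.finrank_add_le_finrank_add_finrank _ _).trans (by omega)

theorem aeval_small (y : K⟦X⟧) (q : Polynomial K) (hq : q.degree < d) :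
    ∃ β : Fin d → K, Polynomial.aeval y q = ∑ j, β j • y ^ (j : ℕ) := by
  refine ⟨fun j => q.coeff j, ?_⟩
  by_cases h0 : q = 0
  · simp [h0]
  have hq' : q.natDegree < d := (Polynomial.natDegree_lt_iff_degree_lt h0).2 hq
  rw [Polynomial.aeval_eq_sum_range' hq', Fin.sum_univ_eq_sum_range
    (fun j => q.coeff j • y ^ j)]

theorem pow_reduce (P : Polynomial K) (hP : P.Monic) (hd : P.natDegree = d) (y : K⟦X⟧) (κ : K)
    (hy : Polynomial.aeval y P = C κ * X) (m : ℕ) (hm : m < 2 * d) :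
    ∃ β : Fin 2 × Fin d → K, y ^ m = ∑ t, β t • (X ^ (t.1 : ℕ) * y ^ (t.2 : ℕ)) := by
  have hdeg : P.degree = d := by rw [Polynomial.degree_eq_natDegree hP.ne_zero, hd]
  obtain ⟨β₀, h₀⟩ := aeval_small (d := d) y (Polynomial.X ^ m %ₘ P)
    (hdeg ▸ Polynomial.degree_modByMonic_lt _ hP)
  obtain ⟨β₁, h₁⟩ := aeval_small (d := d) y (Polynomial.X ^ m /ₘ P) (by
    by_cases h0 : Polynomial.X ^ m /ₘ P = 0
    · rw [h0]; exact WithBot.bot_lt_coe _
    rw [← Polynomial.natDegree_lt_iff_degree_lt h0, Polynomial.natDegree_divByMonic _ hP,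
      Polynomial.natDegree_X_pow, hd]
    omega)
  refine ⟨fun t => if t.1 = 0 then β₀ t.2 else κ * β₁ t.2, ?_⟩
  have h := congrArg (Polynomial.aeval y) (Polynomial.modByMonic_add_div (Polynomial.X ^ m) P)
  rw [map_add, map_mul, map_pow, Polynomial.aeval_X, h₀, h₁, hy] at h
  rw [← h, Fintype.sum_prod_type, Fin.sum_univ_two, mul_sum]
  congr 1
  · simp
  · refine sum_congr rfl fun j _ => ?_
    simp only [Fin.isValue, one_ne_zero, if_false, Fin.val_one, pow_one, smul_eq_C_mul, map_mul]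
    ring

theorem mon_mul_mon_mem (P : Polynomial K) (hP : P.Monic) (hd : P.natDegree = d)
    (ψ : Fin k → K⟦X⟧) (κ : Fin k → K) (hψ : ∀ i, Polynomial.aeval (ψ i) P = C (κ i) * X)
    (a b : Fin k → Fin d) : mon ψ a * mon ψ b ∈ U ψ d (k + 1) := by
  classical
  have h : ∀ i, ∃ β : Fin 2 × Fin d → K, ψ i ^ ((a i : ℕ) + b i)
      = ∑ t, β t • (X ^ (t.1 : ℕ) * ψ i ^ (t.2 : ℕ)) := fun i =>
    pow_reduce P hP hd _ _ (hψ i) _ (by have := (a i).2; have := (b i).2; omega)
  choose β hβ using h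
  have e : mon ψ a * mon ψ b = ∏ i, ∑ t, β i t • (X ^ (t.1 : ℕ) * ψ i ^ (t.2 : ℕ)) := by
    rw [mon, mon, ← prod_mul_distrib]
    exact prod_congr rfl fun i _ => by rw [← pow_add, hβ]
  rw [e, prod_univ_sum]
  refine sum_mem fun τ _ => ?_
  rw [prod_smul, prod_mul_distrib, prod_pow_eq_pow_sum]
  refine smul_mem _ _ (mem_U ψ ?_ (fun i => (τ i).2))
  have : ∑ i, ((τ i).1 : ℕ) ≤ ∑ _i : Fin k, 1 :=
    sum_le_sum fun i _ => by have := (τ i).1.2; omega
  simp at this
  omega

theorem zero_estimate (P : Polynomial K) (hP : P.Monic) (hd : P.natDegree = d) (hd0 : 0 < d)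
    (ψ : Fin k → K⟦X⟧) (κ : Fin k → K) (hψ : ∀ i, Polynomial.aeval (ψ i) P = C (κ i) * X)
    (c : (Fin k → Fin d) → K) (R : K⟦X⟧) (hR : R = ∑ a, C (c a) * mon ψ a) (hR0 : R ≠ 0)
    (r : ℕ) (hr : X ^ r ∣ R) : r ≤ k * d ^ k := by
  have hmul : ∀ u ∈ U ψ d r, R * u ∈ U ψ d (r + k) := by
    intro u hu
    induction hu using span_induction with
    | mem x hx =>
      obtain ⟨⟨i, b⟩, rfl⟩ := hx
      simp only
      rw [hR, sum_mul]
      refine sum_mem fun a _ => ?_
      have e : C (c a) * mon ψ a * (X ^ (i : ℕ) * mon ψ b)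
          = c a • (X ^ (i : ℕ) * (mon ψ a * mon ψ b)) := by
        rw [smul_eq_C_mul]; ring
      rw [e]
      exact smul_mem _ _ (X_pow_mul_mem_U ψ (by have := i.2; omega)
        (mon_mul_mon_mem P hP hd ψ κ hψ a b))
    | zero => simp
    | add x y _ _ hx hy => rw [mul_add]; exact add_mem hx hy
    | smul c x _ hx => rw [mul_smul_comm]; exact smul_mem _ _ hx
  have hX : ∀ j : Fin r, (X : K⟦X⟧) ^ (j : ℕ) ∈ U ψ d (r + k) := by
    intro j
    have := mem_U ψ (m := r + k) (j := j) (by have := j.2; omega) (fun _ => (⟨0, hd0⟩ : Fin d))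
    simpa [mon] using this
  let Φ₀ : (U ψ d r × (Fin r → K)) →ₗ[K] K⟦X⟧ :=
    ((LinearMap.mulLeft K R).comp (U ψ d r).subtype).coprod
      (Fintype.linearCombination K fun j : Fin r => (X : K⟦X⟧) ^ (j : ℕ))
  have hΦ₀ : ∀ z, Φ₀ z = R * (z.1 : K⟦X⟧) + ∑ j, z.2 j • (X : K⟦X⟧) ^ (j : ℕ) := by
    intro z
    simp [Φ₀, Fintype.linearCombination_apply]
  have hmem : ∀ z, Φ₀ z ∈ U ψ d (r + k) := by
    intro z
    rw [hΦ₀]
    exact add_mem (hmul _ z.1.2) (sum_mem fun j _ => smul_mem _ _ (hX j))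
  let Φ := Φ₀.codRestrict _ hmem
  have hinj : Function.Injective Φ := by
    rw [injective_iff_map_eq_zero]
    intro z hz
    have h0 : Φ₀ z = 0 := congrArg Subtype.val hz
    rw [hΦ₀] at h0
    have h2 : z.2 = 0 := by
      funext j
      have h3 := congrArg (coeff (j : ℕ)) h0
      have h4 : coeff (j : ℕ) (R * (z.1 : K⟦X⟧)) = 0 :=
        X_pow_dvd_iff.1 (Dvd.dvd.mul_right hr _) j j.2
      rw [map_add, h4, zero_add, map_sum, sum_eq_single j] at h3
      · simpa using h3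
      · intro b _ hb
        rw [coeff_smul, coeff_X_pow, if_neg, smul_zero]
        exact fun e => hb (Fin.ext e.symm)
      · simp
    rw [h2] at h0
    simp only [Pi.zero_apply, zero_smul, sum_const_zero, add_zero, mul_eq_zero, hR0,
      false_or] at h0
    exact Prod.ext (Subtype.ext h0) h2
  have h1 := LinearMap.finrank_le_finrank_of_injective hinj
  rw [Module.finrank_prod, Module.finrank_fintype_fun_eq_card, Fintype.card_fin] at h1
  have h2 := finrank_U_add (d := d) ψ r k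
  omega

end Pool.Agent.MP_57a821_nt

end

-- part MP_57a821_nt.Tools
section

/-! A norm from a basis, truncated evaluation, uniqueness of lifts, and the Siegel lemma. -/

set_option autoImplicit false

namespace Pool.Agent.MP_57a821_nt

open PowerSeries Finset

section Norm

variable {O : Type*} [CommRing O] {ι : Type*} [Fintype ι] [DecidableEq ι]

/-- Sum of the absolute values of the entries of the multiplication matrix. -/
noncomputable def nuB (b : Module.Basis ι ℤ O) : RingSeminorm O where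
  toFun x := ∑ i, ∑ j, |((Algebra.leftMulMatrix b x i j : ℤ) : ℝ)|
  map_zero' := by simp
  add_le' x y := by
    rw [← sum_add_distrib]
    refine sum_le_sum fun i _ => ?_
    rw [← sum_add_distrib]
    refine sum_le_sum fun j _ => ?_
    rw [map_add, Matrix.add_apply, Int.cast_add]
    exact abs_add_le _ _
  neg' x := by simp
  mul_le' x y := by
    set A := Algebra.leftMulMatrix b x
    set B := Algebra.leftMulMatrix b y
    rw [map_mul]
    calc ∑ i, ∑ j, |(((A * B) i j : ℤ) : ℝ)|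
        ≤ ∑ i, ∑ j, ∑ l, |((A i l : ℤ) : ℝ)| * |((B l j : ℤ) : ℝ)| := by
          refine sum_le_sum fun i _ => sum_le_sum fun j _ => ?_
          rw [Matrix.mul_apply]
          push_cast
          refine (abs_sum_le_sum_abs _ _).trans (le_of_eq ?_)
          exact sum_congr rfl fun l _ => abs_mul _ _
      _ = ∑ i, ∑ l, |((A i l : ℤ) : ℝ)| * ∑ j, |((B l j : ℤ) : ℝ)| := by
          refine sum_congr rfl fun i _ => ?_
          rw [sum_comm]
          exact sum_congr rfl fun l _ => by rw [mul_sum]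
      _ ≤ ∑ i, ∑ l, |((A i l : ℤ) : ℝ)| * ∑ l', ∑ j, |((B l' j : ℤ) : ℝ)| := by
          refine sum_le_sum fun i _ => sum_le_sum fun l _ => ?_
          refine mul_le_mul_of_nonneg_left ?_ (abs_nonneg _)
          exact single_le_sum (f := fun l' => ∑ j, |((B l' j : ℤ) : ℝ)|)
            (fun l' _ => sum_nonneg fun j _ => abs_nonneg _) (mem_univ l)
      _ = _ := by
          rw [sum_mul]
          exact sum_congr rfl fun i _ => by rw [sum_mul]

theorem entry_le_nuB (b : Module.Basis ι ℤ O) (x : O) (i j : ι) :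
    |((Algebra.leftMulMatrix b x i j : ℤ) : ℝ)| ≤ nuB b x := by
  change _ ≤ ∑ i, ∑ j, |((Algebra.leftMulMatrix b x i j : ℤ) : ℝ)|
  refine le_trans ?_ (single_le_sum
    (f := fun i => ∑ j, |((Algebra.leftMulMatrix b x i j : ℤ) : ℝ)|)
    (fun l' _ => sum_nonneg fun j _ => abs_nonneg _) (mem_univ i))
  exact single_le_sum (f := fun j => |((Algebra.leftMulMatrix b x i j : ℤ) : ℝ)|)
    (fun l' _ => abs_nonneg _) (mem_univ j)

theorem exists_int_multiple [IsDomain O] (b : Module.Basis ι ℤ O) (x : O) (hx : x ≠ 0) :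
    ∃ n : ℤ, n ≠ 0 ∧ x ∣ (n : O) ∧
      |(n : ℝ)| ≤ (Fintype.card ι).factorial * nuB b x ^ Fintype.card ι := by
  set A := Algebra.leftMulMatrix b x with hA
  refine ⟨A.det, ?_, ?_, ?_⟩
  · rw [hA, ← Algebra.norm_eq_matrix_det]
    exact (Algebra.norm_ne_zero_iff_of_basis b).2 hx
  · refine ⟨b.equivFun.symm (A.adjugate.mulVec (b.repr 1)), ?_⟩
    apply b.repr.injective
    apply DFunLike.coe_injective
    have h1 : (b.repr (b.equivFun.symm (A.adjugate.mulVec (b.repr 1))) : ι → ℤ)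
        = A.adjugate.mulVec (b.repr 1) := by
      rw [← Module.Basis.equivFun_apply, LinearEquiv.apply_symm_apply]
    change (b.repr (A.det : O) : ι → ℤ) = b.repr (x * _)
    rw [← Algebra.leftMulMatrix_mulVec_repr, h1, ← hA, Matrix.mulVec_mulVec, Matrix.mul_adjugate,
      Matrix.smul_mulVec, Matrix.one_mulVec]
    have : ((A.det : ℤ) : O) = A.det • (1 : O) := by simp
    rw [this, map_smul]
    rfl
  · have h := Matrix.det_le (A := A.map (Int.castRingHom ℝ)) (abv := AbsoluteValue.abs)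
      (x := nuB b x) (fun i j => entry_le_nuB b x i j)
    have h2 : (A.map (Int.castRingHom ℝ)).det = ((A.det : ℤ) : ℝ) :=
      ((Int.castRingHom ℝ).map_det A).symm
    rw [h2] at h
    simpa using h

omit [Fintype ι] [DecidableEq ι] in
theorem eq_zero_of_pow_dvd (b : Module.Basis ι ℤ O) (p : ℕ) (hp : p.Prime) (x : O)
    (h : ∀ t : ℕ, (p : O) ^ t ∣ x) : x = 0 := by
  apply b.repr.injective
  ext i
  rw [map_zero, Finsupp.zero_apply]
  set n := b.repr x i with hn
  obtain ⟨y, hy⟩ := h n.natAbs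
  have h1 : (p : ℤ) ^ n.natAbs ∣ n := by
    refine ⟨b.repr y i, ?_⟩
    have : x = ((p : ℤ) ^ n.natAbs) • y := by rw [hy]; simp
    conv_lhs => rw [hn, this, map_smul]
    rfl
  refine Int.eq_zero_of_abs_lt_dvd h1 ?_
  rw [← Int.natCast_natAbs]
  exact_mod_cast Nat.lt_pow_self hp.one_lt

end Norm

theorem exists_evalHom {O S : Type*} [CommRing O] [CommRing S] (π : O →+* S) (s : S) (m : ℕ)
    (hs : s ^ m = 0) : ∃ E : O⟦X⟧ →+* S, (∀ a, E (C a) = π a) ∧ E X = s := by
  have key : ∀ p q : Polynomial O, (∀ j < m, p.coeff j = q.coeff j) →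
      p.eval₂ π s = q.eval₂ π s := by
    intro p q h
    obtain ⟨t, ht⟩ : Polynomial.X ^ m ∣ p - q := by
      rw [Polynomial.X_pow_dvd_iff]
      intro j hj
      rw [Polynomial.coeff_sub, h j hj, sub_self]
    have := congrArg (Polynomial.eval₂ π s) ht
    rw [Polynomial.eval₂_sub, Polynomial.eval₂_mul, Polynomial.eval₂_X_pow, hs, zero_mul] at this
    exact sub_eq_zero.1 this
  have hcoe : ∀ p : Polynomial O, (trunc m (p : O⟦X⟧)).eval₂ π s = p.eval₂ π s := by
    intro p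
    refine key _ _ fun j hj => ?_
    rw [coeff_trunc, if_pos hj, Polynomial.coeff_coe]
  refine ⟨{ toFun := fun f => (trunc m f).eval₂ π s
            map_one' := by simpa using hcoe 1
            map_mul' := ?_
            map_zero' := by simp
            map_add' := fun f g => by simp }, ?_, ?_⟩
  · intro f g
    rw [← Polynomial.eval₂_mul]
    refine key _ _ fun j hj => ?_
    rw [coeff_trunc, if_pos hj, coeff_mul_eq_coeff_trunc_mul_trunc f g hj, ← Polynomial.coe_mul,
      Polynomial.coeff_coe]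
  · intro a
    simpa using hcoe (Polynomial.C a)
  · simpa using hcoe Polynomial.X

theorem lift_unique {S : Type*} [CommRing S] (P : Polynomial ℤ) (a b ρ : S)
    (ha : IsNilpotent (a - ρ)) (hb : IsNilpotent (b - ρ)) (hu : IsUnit (ev P.derivative ρ))
    (h : ev P a = ev P b) : a = b := by
  set f := P.map (Int.castRingHom S) with hf
  obtain ⟨κ, hκ⟩ := f.binomExpansion b (a - b)
  rw [add_sub_cancel, ← ev_eq_eval_map, ← ev_eq_eval_map, h] at hκ
  obtain ⟨z, hz⟩ := Polynomial.sub_dvd_eval_sub b ρ f.derivative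
  rw [ev_eq_eval_map, ← Polynomial.derivative_map, ← hf] at hu
  have hab : IsNilpotent (a - b) := by
    have := (Commute.all _ _).isNilpotent_sub ha hb
    rwa [sub_sub_sub_cancel_right] at this
  have hn : IsNilpotent ((b - ρ) * z + κ * (a - b)) :=
    (Commute.all _ _).isNilpotent_add ((Commute.all _ _).isNilpotent_mul_right hb)
      ((Commute.all _ _).isNilpotent_mul_left hab)
  have hU := hn.isUnit_add_left_of_commute hu (Commute.all _ _)
  have h0 : (f.derivative.eval ρ + ((b - ρ) * z + κ * (a - b))) * (a - b) = 0 := by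
    linear_combination -hκ - (a - b) * hz
  exact sub_eq_zero.1 (hU.mul_right_eq_zero.1 h0)

attribute [local instance] Matrix.seminormedAddCommGroup in
theorem siegel {α β : Type*} [Fintype α] [Fintype β] (A : Matrix α β ℤ) (E : ℝ) (hE : 1 ≤ E)
    (hA : ∀ i j, |((A i j : ℤ) : ℝ)| ≤ E) (h2 : 2 * Fintype.card α ≤ Fintype.card β)
    (h0 : 0 < Fintype.card α) :
    ∃ t : β → ℤ, t ≠ 0 ∧ A.mulVec t = 0 ∧ ∀ j, |((t j : ℤ) : ℝ)| ≤ Fintype.card β * E := by
  obtain ⟨t, ht0, htA, ht⟩ := Int.Matrix.exists_ne_zero_int_vec_norm_le A (by omega) h0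
  refine ⟨t, ht0, htA, fun j => ?_⟩
  have hAn : ‖A‖ ≤ E := by
    rw [Matrix.norm_le_iff (by linarith)]
    intro i j
    rw [Int.norm_eq_abs]
    exact hA i j
  have hβ : (1 : ℝ) ≤ Fintype.card β := by exact_mod_cast (by omega : 1 ≤ Fintype.card β)
  have h2' : 2 * (Fintype.card α : ℝ) ≤ Fintype.card β := by exact_mod_cast h2
  have h0' : (0 : ℝ) < Fintype.card α := by exact_mod_cast h0
  have h1 : (1 : ℝ) ≤ Fintype.card β * max 1 ‖A‖ := one_le_mul_of_one_le_of_one_le hβ (le_max_left _ _)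
  calc |((t j : ℤ) : ℝ)| = ‖t j‖ := (Int.norm_eq_abs _).symm
    _ ≤ ‖t‖ := norm_le_pi_norm t j
    _ ≤ _ := ht
    _ ≤ (Fintype.card β * max 1 ‖A‖) ^ (1 : ℝ) := by
        refine Real.rpow_le_rpow_of_exponent_le h1 ?_
        rw [div_le_one (by linarith)]
        linarith
    _ ≤ _ := by
        rw [Real.rpow_one]
        exact mul_le_mul_of_nonneg_left (max_le hE hAn) (by linarith)

end Pool.Agent.MP_57a821_nt

end

-- part MP_57a821_nt.Core
section

/-! The gap principle: an auxiliary form vanishing to high order, evaluated at the solutions. -/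

set_option autoImplicit false

namespace Pool.Agent.MP_57a821_nt

open PowerSeries Finset

variable {O : Type*} [CommRing O]

theorem ev_rescale (P : Polynomial ℤ) (g : O) (ψ : O⟦X⟧) (hev : ev P ψ = C (g ^ 2) * X) (q : O) :
    ev P (rescale q ψ) = C (g ^ 2 * q) * X := by
  rw [← map_ev, hev, map_mul, rescale_C', rescale_X, map_mul, mul_assoc]

theorem order_le [IsDomain O] (P : Polynomial ℤ) (hP : P.Monic) (hd : 0 < P.natDegree) (g : O)
    (ψ : O⟦X⟧) (hev : ev P ψ = C (g ^ 2) * X) {k : ℕ} (Q : Fin k → ℤ)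
    (c : (Fin k → Fin P.natDegree) → O) (R : O⟦X⟧) (hR : R = ∑ a, C (c a) * mono ψ Q a)
    (hR0 : R ≠ 0) (r : ℕ) (hr : X ^ r ∣ R) : r ≤ k * P.natDegree ^ k := by
  set K := FractionRing O
  set φ := algebraMap O K with hφ
  have hinj : Function.Injective φ := IsFractionRing.injective O K
  refine zero_estimate (K := K) (P.map (Int.castRingHom K)) (hP.map _) (hP.natDegree_map _) hd
    (fun i => PowerSeries.map φ (rescale (Q i : O) ψ)) (fun i => φ (g ^ 2 * Q i)) ?_
    (fun a => φ (c a)) (PowerSeries.map φ R) ?_ ?_ r ?_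
  · intro i
    have h1 : ∀ y : K⟦X⟧, Polynomial.aeval y (P.map (Int.castRingHom K)) = ev P y := by
      intro y
      unfold ev
      rw [Polynomial.aeval_def, Polynomial.eval₂_map]
      congr 1
      exact RingHom.ext_int _ _
    rw [h1, ← map_ev, ev_rescale P g ψ hev]
    simp
  · rw [hR]
    simp [mono, mon]
  · intro h
    apply hR0
    ext j
    have := congrArg (coeff j) h
    rw [coeff_map, map_zero] at this
    exact hinj (by rw [this, map_zero, map_zero])
  · have := map_dvd (PowerSeries.map φ) hr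
    simpa using this

theorem mono_coeff_le (ν : RingSeminorm O) (ψ : O⟦X⟧) (σ B : ℝ) (hσ : 0 < σ) (hB : 1 ≤ B)
    (hB1 : ν 1 ≤ B) (hNB : NB ν σ B ψ) (β₁ β₂ q : ℕ) (h₁ : B ≤ 2 ^ β₁) (h₂ : σ⁻¹ ≤ 2 ^ β₂)
    {k d : ℕ} (Q : Fin k → ℤ) (hQ : ∀ i, |((Q i : ℤ) : ℝ)| ≤ 2 ^ q) (a : Fin k → Fin d)
    (hd : 0 < d) (j J : ℕ) (hj : j ≤ J) (hk : k + 1 ≤ J) :
    ν (coeff j (mono ψ Q a)) ≤ 2 ^ ((β₁ * d + β₂ + q) * J) := by
  have hσ' : 0 < σ / 2 ^ q := by positivity
  have hBd : B ≤ B ^ d := le_self_pow₀ hB hd.ne'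
  have h1 : NB ν (σ / 2 ^ q) ((B ^ d) ^ ((univ : Finset (Fin k)).card + 1)) (mono ψ Q a) := by
    refine NB.prod hσ'.le _ _ (hB1.trans hBd) fun i _ => ?_
    refine ((hNB.rescale hσ.le (Q i) _ (by positivity) (hQ i)).pow hσ'.le (a i)).mono ?_
    calc ν 1 * B ^ (a i : ℕ) ≤ B * B ^ (a i : ℕ) :=
          mul_le_mul_of_nonneg_right hB1 (by positivity)
      _ = B ^ ((a i : ℕ) + 1) := by ring
      _ ≤ B ^ d := pow_le_pow_right₀ hB (a i).2
  have h2 := h1.coeff_le hσ' j
  rw [card_univ, Fintype.card_fin] at h2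
  refine h2.trans ?_
  have h3 : (B ^ d) ^ (k + 1) ≤ 2 ^ (β₁ * d * J) := by
    calc (B ^ d) ^ (k + 1) ≤ ((2 ^ β₁) ^ d) ^ (k + 1) := by gcongr
      _ = (2 : ℝ) ^ (β₁ * d * (k + 1)) := by rw [← pow_mul, ← pow_mul, mul_assoc]
      _ ≤ _ := pow_le_pow_right₀ one_le_two (Nat.mul_le_mul_left _ hk)
  have h4 : ((σ / 2 ^ q)⁻¹) ^ j ≤ 2 ^ ((β₂ + q) * J) := by
    calc ((σ / 2 ^ q)⁻¹) ^ j = (σ⁻¹ * 2 ^ q) ^ j := by
          rw [inv_div, div_eq_mul_inv, mul_comm]
      _ ≤ (2 ^ β₂ * 2 ^ q) ^ j := by gcongr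
      _ = (2 : ℝ) ^ ((β₂ + q) * j) := by rw [← pow_add, ← pow_mul]
      _ ≤ _ := pow_le_pow_right₀ one_le_two (Nat.mul_le_mul_left _ hj)
  calc _ ≤ (2 : ℝ) ^ (β₁ * d * J) * 2 ^ ((β₂ + q) * J) :=
        mul_le_mul h3 h4 (by positivity) (by positivity)
    _ = _ := by rw [← pow_add]; congr 1; ring

/-- The value of the auxiliary form at the solutions, modulo `ℓ^((r+1)v)`. -/
theorem eval_congr (P : Polynomial ℤ) (ρ g : O) (hg : g = ev P.derivative ρ) (D : ℤ)
    (hgD : g ∣ (D : O)) (ψ ω : O⟦X⟧) (hψ : ψ = C ρ + X * ω) (hev : ev P ψ = C (g ^ 2) * X)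
    (ℓ : ℕ) (hℓ : ℓ.Prime) (hℓD : ¬ (ℓ : ℤ) ∣ D) {k d : ℕ} (x Q : Fin k → ℤ) (w : ℤ) (v r : ℕ)
    (hv : 0 < v) (hx : ∀ i, P.eval (x i) = Q i * (ℓ ^ v * w))
    {S : Type*} [CommRing S] (hℓ0 : (ℓ : S) ^ ((r + 1) * v) = 0) (π : O →+* S)
    (hπ : ∀ i, (ℓ : S) ∣ (x i : S) - π ρ)
    (t : (Fin k → Fin d) → ℤ) (R' : O⟦X⟧)
    (hR : ∑ a, C (t a : O) * mono ψ Q a = X ^ r * R') :
    ∃ u : S, IsUnit u ∧ ((∑ a, t a * ∏ i, x i ^ (a i : ℕ) : ℤ) : S)
        = u * (((ℓ ^ v * w) ^ r : ℤ) : S) * π (constantCoeff R') := by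
  have hℓn : IsNilpotent (ℓ : S) := ⟨_, hℓ0⟩
  have hnil : ∀ z : S, (ℓ : S) ∣ z → IsNilpotent z := by
    rintro z ⟨y, rfl⟩
    exact (Commute.all _ _).isNilpotent_mul_right hℓn
  have hDu : IsUnit (D : S) := by
    have hcop : IsCoprime (ℓ : ℤ) D :=
      (Nat.prime_iff_prime_int.1 hℓ).irreducible.coprime_iff_not_dvd.2 hℓD
    obtain ⟨a, b, hab⟩ := hcop
    have h1 := congrArg (Int.cast : ℤ → S) hab
    push_cast at h1
    have h2 : IsUnit ((b : S) * D) := by
      have h3 := (hnil (-((a : S) * ℓ)) ((dvd_neg).2 (Dvd.intro_left _ rfl))).isUnit_add_left_of_commute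
        isUnit_one (Commute.all _ _)
      have : (b : S) * D = 1 + -((a : S) * ℓ) := by linear_combination h1
      rwa [this]
    exact isUnit_of_mul_isUnit_right h2
  have hgu : IsUnit (π g) := by
    obtain ⟨g', hg'⟩ := hgD
    have := congrArg π hg'
    rw [map_intCast, map_mul] at this
    exact isUnit_of_mul_isUnit_left (this ▸ hDu)
  obtain ⟨γ, hγ⟩ := (hgu.pow 2).exists_left_inv
  have hγu : IsUnit γ := IsUnit.of_mul_eq_one _ hγ
  set s : S := γ * ((ℓ ^ v * w : ℤ) : S) with hs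
  have hsℓ : (ℓ : S) ∣ s := by
    rw [hs]
    push_cast
    exact Dvd.dvd.mul_left (Dvd.dvd.mul_right (dvd_pow_self _ hv.ne') _) _
  have hs0 : s ^ (r + 1) = 0 := by
    rw [hs]
    push_cast
    rw [mul_pow, mul_pow, ← pow_mul, mul_comm v, hℓ0]
    simp
  obtain ⟨E, hEC, hEX⟩ := exists_evalHom π s (r + 1) hs0
  have hEψ : ∀ i, E (rescale (Q i : O) ψ) = (x i : S) := by
    intro i
    refine lift_unique P _ _ (π ρ) (hnil _ ?_) (hnil _ (hπ i)) ?_ ?_
    · rw [hψ]
      simp only [map_add, map_mul, rescale_C', rescale_X, hEC, hEX, add_sub_cancel_left]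
      exact Dvd.dvd.mul_right (Dvd.dvd.mul_left hsℓ _) _
    · rw [← map_ev, ← hg]; exact hgu
    · rw [← map_ev, ev_rescale P g ψ hev, ev_intCast, hx i, map_mul, hEC, hEX, map_mul, map_pow,
        map_intCast, hs, Int.cast_mul (Q i)]
      linear_combination (Q i : S) * ((ℓ ^ v * w : ℤ) : S) * hγ
  refine ⟨γ ^ r, hγu.pow r, ?_⟩
  have h1 := congrArg E hR
  have h2 : E R' = π (constantCoeff R') + s * E (PowerSeries.mk fun n => coeff (n + 1) R') := by
    conv_lhs => rw [eq_X_mul_shift_add_const R']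
    rw [map_add, map_mul, hEX, hEC, add_comm]
  rw [map_mul, map_pow, hEX, h2, mul_add, ← mul_assoc, ← pow_succ, hs0, zero_mul, add_zero] at h1
  simp only [map_sum, map_mul, map_intCast, mono, map_prod, map_pow, hEψ] at h1
  push_cast
  rw [h1, hs]
  push_cast
  ring

theorem exists_two_pow_ge (B : ℝ) : ∃ β : ℕ, B ≤ 2 ^ β := by
  obtain ⟨n, hn⟩ := pow_unbounded_of_one_lt B (one_lt_two (α := ℝ))
  exact ⟨n, hn.le⟩

theorem core [IsDomain O] [CharZero O] {ι : Type*} [Fintype ι] [DecidableEq ι]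
    (b : Module.Basis ι ℤ O) (P : Polynomial ℤ) (hP : P.Monic) (hd : 2 ≤ P.natDegree) (ρ : O)
    (hρ : ev P ρ = 0) (D : ℤ) (hgD : ev P.derivative ρ ∣ (D : O)) :
    ∃ β e : ℕ, 0 < e ∧ ∀ (ℓ : ℕ), ℓ.Prime → ¬ (ℓ : ℤ) ∣ D → ∀ (k L : ℕ), 0 < k → 0 < L →
      2 * (L * e ^ 2) ≤ P.natDegree ^ k → ∀ (x Q : Fin k → ℤ) (w : ℤ) (v : ℕ),
      ¬ (ℓ : ℤ) ∣ w → (∀ i, P.eval (x i) = Q i * (ℓ ^ v * w)) →
      (∀ N, ∃ π : O →+* ZMod (ℓ ^ N), ∀ i, (ℓ : ZMod (ℓ ^ N)) ∣ (x i : ZMod _) - π ρ) →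
      (∀ i, Q i ≠ 0) →
      (∀ i, ∃ p : ℕ, p.Prime ∧ ¬ (p : ℤ) ∣ D ∧ ∀ j, i < j → Q i * p ∣ Q j) →
      ∀ q y : ℕ, (∀ i, |Q i| ≤ 2 ^ q) → (∀ i, |x i| ≤ 2 ^ y) →
      v ≤ (β + q) * (e * ((k + 1) * P.natDegree ^ k)) ∨ (L - 1) * v ≤ y * (P.natDegree * k) := by
  classical
  set ν := nuB b with hν
  obtain ⟨ψ, ω, σ, B, hσ, -, hB, hB1, hψ, hω, hev, hNB⟩ := exists_psi ν P ρ hρ
  set g := ev P.derivative ρ with hg
  set d := P.natDegree with hdd
  obtain ⟨β₁, h₁⟩ := exists_two_pow_ge B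
  obtain ⟨β₂, h₂⟩ := exists_two_pow_ge σ⁻¹
  set e := Fintype.card ι with he
  obtain ⟨β₃, h₃⟩ := exists_two_pow_ge (e.factorial : ℝ)
  have he0 : 0 < e := by
    have : Nonempty ι := b.index_nonempty
    exact Fintype.card_pos
  refine ⟨β₁ * d + β₂ + β₃ + 1, e, he0, ?_⟩
  intro ℓ hℓ hℓD k L hk hL hM x Q w v hw hx hπ hQ0 hch q y hq hy
  rcases Nat.eq_zero_or_pos v with rfl | hv
  · left; exact Nat.zero_le _
  set M := d ^ k with hMd
  set z := β₁ * d + β₂ + q with hz
  have hkM : k + 1 ≤ M := by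
    have : k < 2 ^ k := Nat.lt_two_pow_self
    have : 2 ^ k ≤ d ^ k := Nat.pow_le_pow_left hd k
    omega
  have hM2 : (M : ℝ) ≤ 2 ^ M := by exact_mod_cast (Nat.lt_two_pow_self (n := M)).le
  have hLM : L ≤ M := by nlinarith [pow_pos he0 2]
  have hMk : M ≤ k * M := Nat.le_mul_of_pos_left _ hk
  have hq' : ∀ i, |((Q i : ℤ) : ℝ)| ≤ 2 ^ q := fun i => by exact_mod_cast hq i
  have hco : ∀ (a : Fin k → Fin d) (j J : ℕ), j ≤ J → M ≤ J →
      ν (coeff j (mono ψ Q a)) ≤ 2 ^ (z * J) := fun a j J hj hJ =>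
    mono_coeff_le ν ψ σ B hσ hB hB1 hNB β₁ β₂ q h₁ h₂ Q hq' a (by omega) j J hj (by omega)
  have hcard : Fintype.card (Fin k → Fin d) = M := by simp [hMd]
  obtain ⟨t, ht0, htA, ht⟩ := siegel
    (Matrix.of fun (s : Fin L × ι × ι) (a : Fin k → Fin d) =>
      Algebra.leftMulMatrix b (coeff (s.1 : ℕ) (mono ψ Q a)) s.2.1 s.2.2)
    (2 ^ (z * M)) (one_le_pow₀ one_le_two)
    (fun s a => (entry_le_nuB b _ _ _).trans (hco a _ _ (by have := s.1.2; omega) le_rfl))
    (by rw [hcard]; simpa [← he, sq] using hM) (by simp [← he, hL, he0])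
  rw [hcard] at ht
  have ht' : ∀ a, |((t a : ℤ) : ℝ)| ≤ 2 ^ ((z + 1) * M) := fun a => by
    refine (ht a).trans ?_
    rw [add_mul z, pow_add, one_mul, mul_comm]
    gcongr
  set R := ∑ a, C (t a : O) * mono ψ Q a with hR
  have hRL : ∀ j < L, coeff j R = 0 := by
    intro j hj
    apply Algebra.leftMulMatrix_injective b
    ext i i'
    have := congrFun htA (⟨j, hj⟩, i, i')
    simp only [Matrix.mulVec, dotProduct, Matrix.of_apply, Pi.zero_apply] at this
    rw [map_zero, Matrix.zero_apply, ← this, hR, map_sum, map_sum, Matrix.sum_apply]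
    refine sum_congr rfl fun a _ => ?_
    rw [coeff_C_mul, ← zsmul_eq_mul, map_zsmul, Matrix.smul_apply, smul_eq_mul, mul_comm]
  have hR0 : R ≠ 0 := by
    intro h
    apply ht0
    funext a
    have := mono_indep P hP ρ g D hgD (eq_zero_of_pow_dvd b) ψ ω hψ hω hev k Q hQ0 hch
      (fun a => (t a : O)) h a
    exact_mod_cast this
  have hex : ∃ r, coeff r R ≠ 0 := by
    by_contra h
    push Not at h
    exact hR0 (PowerSeries.ext fun n => by rw [h n, map_zero])
  set r := Nat.find hex with hr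
  have hG0 : coeff r R ≠ 0 := Nat.find_spec hex
  have hXr : X ^ r ∣ R := by
    rw [X_pow_dvd_iff]
    intro j hj
    have := Nat.find_min hex hj
    push Not at this
    exact this
  have hLr : L ≤ r := by
    by_contra h
    exact hG0 (hRL r (by omega))
  have hrM : r ≤ k * M := order_le P hP (by omega) g ψ hev Q _ R hR hR0 r hXr
  obtain ⟨R', hR'⟩ := hXr
  have hG : constantCoeff R' = coeff r R := by
    rw [hR', ← coeff_zero_eq_constantCoeff_apply]
    have := coeff_X_pow_mul R' r 0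
    rw [zero_add] at this
    exact this.symm
  obtain ⟨π, hπ⟩ := hπ ((r + 1) * v)
  obtain ⟨u, hu, hE⟩ := eval_congr P ρ g hg D hgD ψ ω hψ hev ℓ hℓ hℓD x Q w v r hv hx
    (by rw [← Nat.cast_pow]; exact ZMod.natCast_self _) π hπ t R' hR'
  rw [hG] at hE
  set Z : ℤ := ∑ a, t a * ∏ i, x i ^ (a i : ℕ) with hZ
  have hℓ2 : (2 : ℝ) ≤ ℓ := by exact_mod_cast hℓ.two_le
  have hℓp : Prime (ℓ : ℤ) := Nat.prime_iff_prime_int.1 hℓ
  by_cases hZ0 : Z = 0
  · left
    obtain ⟨n, hn0, ⟨G', hG'⟩, hn⟩ := exists_int_multiple b _ hG0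
    have h1 : (((ℓ ^ v * w) ^ r * n : ℤ) : ZMod (ℓ ^ ((r + 1) * v))) = 0 := by
      rw [hZ0, Int.cast_zero, mul_assoc] at hE
      have h2 := hu.mul_right_eq_zero.1 hE.symm
      have h3 := congrArg π hG'
      rw [map_intCast, map_mul] at h3
      rw [Int.cast_mul, h3, ← mul_assoc, h2, zero_mul]
    rw [ZMod.intCast_zmod_eq_zero_iff_dvd] at h1
    have h2 : (ℓ : ℤ) ^ v ∣ w ^ r * n := by
      have h3 : ((ℓ : ℤ) ^ v) ^ r * ℓ ^ v ∣ ((ℓ : ℤ) ^ v) ^ r * (w ^ r * n) := by
        rw [← mul_assoc, ← mul_pow, ← pow_succ, ← pow_mul, mul_comm v]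
        exact_mod_cast h1
      exact (mul_dvd_mul_iff_left (pow_ne_zero _ (pow_ne_zero _ hℓp.ne_zero))).1 h3
    have h3 : (ℓ : ℤ) ^ v ∣ n :=
      hℓp.pow_dvd_of_dvd_mul_left v (fun h => hw (hℓp.dvd_of_dvd_pow h)) h2
    have h4 : (ℓ : ℝ) ^ v ≤ |(n : ℝ)| := by
      have := Int.le_of_dvd (abs_pos.2 hn0) ((dvd_abs _ _).2 h3)
      exact_mod_cast this
    have h5 : ν (coeff r R) ≤ 2 ^ ((z + 1) * ((k + 1) * M)) := by
      rw [hR, map_sum]
      refine (nu_sum_le ν _ _).trans ?_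
      calc ∑ a, ν (coeff r (C (t a : O) * mono ψ Q a))
          ≤ ∑ _a : Fin k → Fin d, (2 : ℝ) ^ ((z + 1) * M) * 2 ^ (z * (k * M)) := by
            refine sum_le_sum fun a _ => ?_
            rw [coeff_C_mul]
            refine (nu_intCast_mul ν _ _).trans ?_
            exact mul_le_mul (ht' a) (hco a r _ hrM hMk) (apply_nonneg ν _) (by positivity)
        _ = M * ((2 : ℝ) ^ ((z + 1) * M) * 2 ^ (z * (k * M))) := by
            rw [sum_const, card_univ, hcard, nsmul_eq_mul]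
        _ ≤ 2 ^ (k * M) * ((2 : ℝ) ^ ((z + 1) * M) * 2 ^ (z * (k * M))) := by
            gcongr
            exact hM2.trans (pow_le_pow_right₀ one_le_two hMk)
        _ = _ := by rw [← pow_add, ← pow_add]; congr 1; ring
    have h6 : (2 : ℝ) ^ v ≤ 2 ^ ((β₁ * d + β₂ + β₃ + 1 + q) * (e * ((k + 1) * M))) := by
      calc (2 : ℝ) ^ v ≤ (ℓ : ℝ) ^ v := by gcongr
        _ ≤ e.factorial * ν (coeff r R) ^ e := h4.trans hn
        _ ≤ 2 ^ β₃ * (2 ^ ((z + 1) * ((k + 1) * M))) ^ e := by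
            have := apply_nonneg ν (coeff r R)
            gcongr
        _ = 2 ^ (β₃ + (z + 1) * ((k + 1) * M) * e) := by rw [← pow_mul, ← pow_add]
        _ ≤ _ := by
            refine pow_le_pow_right₀ one_le_two ?_
            have h7 : 1 ≤ e * ((k + 1) * M) := Nat.mul_pos he0 (Nat.mul_pos (by omega) (by omega))
            have h8 : β₃ ≤ β₃ * (e * ((k + 1) * M)) := Nat.le_mul_of_pos_right _ h7
            rw [hz]
            nlinarith
    exact (pow_le_pow_iff_right₀ one_lt_two).1 h6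
  · have h1 : (ℓ : ℤ) ^ (r * v) ∣ Z := by
      obtain ⟨c, hc⟩ := ZMod.intCast_surjective (u * ((w ^ r : ℤ) : ZMod _) * π (coeff r R))
      have h2 : (Z : ZMod (ℓ ^ ((r + 1) * v))) = ((ℓ ^ (r * v) * c : ℤ) : ZMod _) := by
        rw [hE]
        push_cast at hc ⊢
        rw [hc]
        ring
      rw [ZMod.intCast_eq_intCast_iff_dvd_sub] at h2
      have h3 : (ℓ : ℤ) ^ (r * v) ∣ ℓ ^ (r * v) * c - Z := by
        refine Dvd.dvd.trans ?_ h2
        push_cast
        exact pow_dvd_pow _ (by nlinarith)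
      have := dvd_sub (dvd_mul_right ((ℓ : ℤ) ^ (r * v)) c) h3
      simpa using this
    have h4 : (ℓ : ℝ) ^ (r * v) ≤ |(Z : ℝ)| := by
      have := Int.le_of_dvd (abs_pos.2 hZ0) ((dvd_abs _ _).2 h1)
      exact_mod_cast this
    have h5 : |(Z : ℝ)| ≤ 2 ^ (2 * ((z + 1) * M) + y * (d * k)) := by
      rw [hZ]
      push_cast
      refine (abs_sum_le_sum_abs _ _).trans ?_
      calc ∑ a : Fin k → Fin d, |(t a : ℝ) * ∏ i, (x i : ℝ) ^ (a i : ℕ)|
          ≤ ∑ _a : Fin k → Fin d, (2 : ℝ) ^ ((z + 1) * M) * 2 ^ (y * (d * k)) := by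
            refine sum_le_sum fun a _ => ?_
            rw [abs_mul]
            refine mul_le_mul (ht' a) ?_ (abs_nonneg _) (by positivity)
            rw [abs_prod]
            calc ∏ i, |(x i : ℝ) ^ (a i : ℕ)| ≤ ∏ _i : Fin k, (2 : ℝ) ^ (y * d) := by
                  refine prod_le_prod (fun i _ => abs_nonneg _) fun i _ => ?_
                  rw [abs_pow, pow_mul]
                  have h6 : |(x i : ℝ)| ≤ 2 ^ y := by exact_mod_cast hy i
                  calc |(x i : ℝ)| ^ (a i : ℕ) ≤ (2 ^ y) ^ (a i : ℕ) := by gcongr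
                    _ ≤ _ := pow_le_pow_right₀ (one_le_pow₀ one_le_two) (a i).2.le
              _ = _ := by
                  rw [prod_const, card_univ, Fintype.card_fin, ← pow_mul, mul_assoc]
        _ = M * ((2 : ℝ) ^ ((z + 1) * M) * 2 ^ (y * (d * k))) := by
            rw [sum_const, card_univ, hcard, nsmul_eq_mul]
        _ ≤ 2 ^ ((z + 1) * M) * ((2 : ℝ) ^ ((z + 1) * M) * 2 ^ (y * (d * k))) := by
            gcongr
            exact hM2.trans (pow_le_pow_right₀ one_le_two (Nat.le_mul_of_pos_left _ (by omega)))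
        _ = _ := by rw [← pow_add, ← pow_add]; congr 1; ring
    have h6 : r * v ≤ 2 * ((z + 1) * M) + y * (d * k) := by
      refine (pow_le_pow_iff_right₀ (one_lt_two (α := ℝ))).1 ?_
      calc (2 : ℝ) ^ (r * v) ≤ (ℓ : ℝ) ^ (r * v) := by gcongr
        _ ≤ _ := h4.trans h5
    by_cases h7 : v ≤ (β₁ * d + β₂ + β₃ + 1 + q) * (e * ((k + 1) * M))
    · exact Or.inl h7
    · right
      have h8 : 2 * ((z + 1) * M) ≤ (β₁ * d + β₂ + β₃ + 1 + q) * (e * ((k + 1) * M)) := by
        have h9 : 2 * M ≤ e * ((k + 1) * M) :=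
          (Nat.mul_le_mul_right M (by omega : 2 ≤ k + 1)).trans (Nat.le_mul_of_pos_left _ he0)
        calc 2 * ((z + 1) * M) = (z + 1) * (2 * M) := by ring
          _ ≤ _ := Nat.mul_le_mul (by omega) h9
      have h10 : L * v ≤ r * v := Nat.mul_le_mul_right _ hLr
      have h11 : (L - 1) * v + v = L * v := by
        obtain ⟨L', rfl⟩ : ∃ L', L = L' + 1 := ⟨L - 1, by omega⟩
        simp [add_mul]
      omega

end Pool.Agent.MP_57a821_nt

end

-- part MP_57a821_nt.Gap
section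

/-! No cluster of solutions of `P(x) = A * n!` in a short interval. -/

set_option autoImplicit false

namespace Pool.Agent.MP_57a821_nt

open Finset

theorem ev_eq_aeval {S : Type*} [CommRing S] [Algebra ℤ S] (P : Polynomial ℤ) (y : S) :
    ev P y = Polynomial.aeval y P := by
  unfold ev
  rw [Polynomial.aeval_def]
  congr 1
  exact RingHom.ext_int _ _

theorem gap_class (P U V : Polynomial ℤ) (hP : P.Monic) (hd : 2 ≤ P.natDegree) (D : ℤ)
    (hB : U * P + V * P.derivative = Polynomial.C D) (ℓ : ℕ) (hℓ : ℓ.Prime)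
    (hℓD : ¬ (ℓ : ℤ) ∣ D) (t : ℤ) (ht : (ℓ : ℤ) ∣ P.eval t) :
    ∃ β e : ℕ, 0 < e ∧ ∀ (k L : ℕ), 0 < k → 0 < L →
      2 * (L * e ^ 2) ≤ P.natDegree ^ k → ∀ (x Q : Fin k → ℤ) (w : ℤ) (v : ℕ),
      ¬ (ℓ : ℤ) ∣ w → (∀ i, P.eval (x i) = Q i * (ℓ ^ v * w)) →
      (∀ i, (ℓ : ℤ) ∣ x i - t) → (∀ i, Q i ≠ 0) →
      (∀ i, ∃ p : ℕ, p.Prime ∧ ¬ (p : ℤ) ∣ D ∧ ∀ j, i < j → Q i * p ∣ Q j) →
      ∀ q y : ℕ, (∀ i, |Q i| ≤ 2 ^ q) → (∀ i, |x i| ≤ 2 ^ y) →
      v ≤ (β + q) * (e * ((k + 1) * P.natDegree ^ k)) ∨ (L - 1) * v ≤ y * (P.natDegree * k) := by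
  classical
  have : Fact ℓ.Prime := ⟨hℓ⟩
  have hBt := congrArg (Polynomial.eval t) hB
  simp only [Polynomial.eval_add, Polynomial.eval_mul, Polynomial.eval_C] at hBt
  have ht' : ¬ (ℓ : ℤ) ∣ P.derivative.eval t := fun h =>
    hℓD (hBt ▸ dvd_add (Dvd.dvd.mul_left ht _) (Dvd.dvd.mul_left h _))
  have hn1 : ‖Polynomial.aeval (t : ℤ_[ℓ]) P.derivative‖ = 1 := by
    rw [← ev_eq_aeval, ev_intCast]
    refine le_antisymm (PadicInt.norm_le_one _) (not_lt.1 fun h => ht' ?_)
    exact (PadicInt.norm_int_lt_one_iff_dvd _).1 h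
  have hn0 : ‖Polynomial.aeval (t : ℤ_[ℓ]) P‖ < ‖Polynomial.aeval (t : ℤ_[ℓ]) P.derivative‖ ^ 2 := by
    rw [hn1, one_pow, ← ev_eq_aeval, ev_intCast]
    exact (PadicInt.norm_int_lt_one_iff_dvd _).2 ht
  obtain ⟨z, hz0, hzt, -⟩ := hensels_lemma hn0
  rw [hn1, PadicInt.norm_lt_one_iff_dvd] at hzt
  have hint : IsIntegral ℤ z := ⟨P, hP, by rw [← Polynomial.aeval_def, hz0]⟩
  set O := Algebra.adjoin ℤ ({z} : Set ℤ_[ℓ]) with hO
  have : Module.Finite ℤ O := Algebra.finite_adjoin_simple_of_isIntegral hint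
  have : Module.Free ℤ O := Module.free_of_finite_type_torsion_free'
  set ρ : O := ⟨z, Algebra.self_mem_adjoin_singleton ℤ z⟩ with hρ
  have hρ0 : ev P ρ = 0 := by
    apply Subtype.val_injective
    have := map_ev (O.val : O →+* ℤ_[ℓ]) P ρ
    exact this.trans ((ev_eq_aeval P z).trans hz0)
  have hgD : ev P.derivative ρ ∣ (D : O) := by
    have h1 := congrArg (fun F => ev F ρ) hB
    simp only [ev, Polynomial.eval₂_add, Polynomial.eval₂_mul, Polynomial.eval₂_C] at h1 hρ0 ⊢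
    rw [hρ0, mul_zero, zero_add] at h1
    exact Dvd.intro_left _ h1
  obtain ⟨β, e, he, h⟩ := core (Module.Free.chooseBasis ℤ O) P hP hd ρ hρ0 D hgD
  refine ⟨β, e, he, fun k L hk hL hM x Q w v hw hx hxt hQ hch => ?_⟩
  refine h ℓ hℓ hℓD k L hk hL hM x Q w v hw hx (fun N => ?_) hQ hch
  refine ⟨(PadicInt.toZModPow N).comp (O.val : O →+* ℤ_[ℓ]), fun i => ?_⟩
  have h1 : (ℓ : ℤ_[ℓ]) ∣ (x i : ℤ_[ℓ]) - z := by
    have h2 : (ℓ : ℤ_[ℓ]) ∣ (x i : ℤ_[ℓ]) - t := by
      have := map_dvd (Int.castRingHom ℤ_[ℓ]) (hxt i)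
      simpa using this
    have := dvd_sub h2 hzt
    rwa [sub_sub_sub_cancel_right] at this
  have := map_dvd (PadicInt.toZModPow (p := ℓ) N) h1
  rw [map_natCast, map_sub, map_intCast] at this
  exact this

theorem pow_div_dvd_factorial (ℓ n : ℕ) (hℓ : 0 < ℓ) : ℓ ^ (n / ℓ) ∣ n.factorial := by
  have key : ∀ m, ℓ ^ m ∣ (ℓ * m).factorial := by
    intro m
    induction m with
    | zero => simp
    | succ m ih =>
      rw [pow_succ, mul_add, mul_one]
      exact (mul_dvd_mul ih (Nat.dvd_factorial hℓ le_rfl)).trans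
        (Nat.factorial_mul_factorial_dvd_factorial_add _ _)
  exact (key _).trans (Nat.factorial_dvd_factorial (Nat.mul_div_le n ℓ))

theorem exists_prime_chain (D : ℤ) (hD : D ≠ 0) (n : ℕ) (hn : 1 ≤ n) :
    ∃ p : ℕ, p.Prime ∧ ¬ (p : ℤ) ∣ D ∧ ∀ m, n + D.natAbs ≤ m → n.factorial * p ∣ m.factorial := by
  set K := D.natAbs with hK
  have hK0 : 0 < K := Int.natAbs_pos.2 hD
  set j := K * ((n - 1) / K + 1) + 1 with hj
  have h1 : n < j := by
    have := Nat.lt_mul_div_succ (n - 1) hK0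
    omega
  have h2 : j ≤ n + K := by
    have := Nat.mul_div_le (n - 1) K
    rw [hj, mul_add, mul_one]
    omega
  refine ⟨j.minFac, Nat.minFac_prime (by omega), fun h => ?_, fun m hm => ?_⟩
  · have h3 : j.minFac ∣ K := Int.natCast_dvd.1 h
    have h4 : j.minFac ∣ 1 :=
      (Nat.dvd_add_right (Dvd.dvd.mul_right h3 _)).1 (hj ▸ Nat.minFac_dvd j)
    exact (Nat.minFac_prime (n := j) (by omega)).one_lt.ne' (Nat.dvd_one.1 h4)
  · obtain ⟨i, hi⟩ : ∃ i, j = i + 1 := ⟨j - 1, by omega⟩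
    refine Dvd.dvd.trans ?_ (Nat.factorial_dvd_factorial (h2.trans hm))
    conv_rhs => rw [hi, Nat.factorial_succ, mul_comm, ← hi]
    exact mul_dvd_mul (Nat.factorial_dvd_factorial (by omega)) (Nat.minFac_dvd j)

theorem no_cluster (P U V : Polynomial ℤ) (hP : P.Monic) (hd : 2 ≤ P.natDegree) (D : ℤ)
    (hD : D ≠ 0) (hB : U * P + V * P.derivative = Polynomial.C D) (ℓ : ℕ) (hℓ : ℓ.Prime)
    (hℓD : ¬ (ℓ : ℤ) ∣ D) (t : ℤ) (ht : (ℓ : ℤ) ∣ P.eval t) (A : ℤ) (hA : A ≠ 0) :
    ∃ c : ℕ, 0 < c ∧ ∀ (lam k : ℕ) (hk : 0 < k), 0 < lam → c * k * lam ≤ P.natDegree ^ k →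
      ∀ n : Fin k → ℕ, StrictMono n →
      (∀ i, ∃ x : ℤ, P.eval x = A * (n i).factorial ∧ (ℓ : ℤ) ∣ x - t) →
      (∀ i j, n i % D.natAbs = n j % D.natAbs) → (∀ i, n i < 2 ^ lam) →
      ∀ H : ℕ, (∀ i, n i ≤ n ⟨0, hk⟩ + H) →
      c * lam * (k * P.natDegree ^ k) * H ≤ n ⟨0, hk⟩ →
      c * (k * P.natDegree ^ k) ≤ n ⟨0, hk⟩ → False := by
  obtain ⟨β, e, he, h⟩ := gap_class P U V hP hd D hB ℓ hℓ hℓD t ht
  set d := P.natDegree with hdd
  set a := A.natAbs + (P.eval 0).natAbs + 1 with ha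
  refine ⟨2 * e ^ 2 * (6 * ℓ * d + 1) + 8 * ℓ * β * e + 8 * ℓ * e + ℓ + a, by omega, ?_⟩
  intro lam k hk hlam hM n hmono hsol hcong hN H hH hc1 hc2
  set c := 2 * e ^ 2 * (6 * ℓ * d + 1) + 8 * ℓ * β * e + 8 * ℓ * e + ℓ + a with hc
  set M := d ^ k with hMd
  set n₀ := n ⟨0, hk⟩ with hn₀
  have hM0 : 0 < M := pow_pos (by omega) _
  have hkM : 0 < k * M := Nat.mul_pos hk hM0
  have hcn : c ≤ n₀ := (Nat.le_mul_of_pos_right _ hkM).trans hc2
  have hle : ∀ i, n₀ ≤ n i := fun i => hmono.monotone (Fin.le_def.2 (Nat.zero_le _))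
  have hHn : H ≤ n₀ :=
    (Nat.le_mul_of_pos_left _ (Nat.mul_pos (Nat.mul_pos (by omega) hlam) hkM)).trans hc1
  choose x hx hxt using hsol
  set Q : Fin k → ℕ := fun i => (n₀ + 1).ascFactorial (n i - n₀) with hQ
  have hQf : ∀ i, n₀.factorial * Q i = (n i).factorial := fun i => by
    rw [hQ]
    simp only
    rw [Nat.factorial_mul_ascFactorial, Nat.add_sub_cancel' (hle i)]
  have hw0 : A * (n₀.factorial : ℤ) ≠ 0 :=
    mul_ne_zero hA (Int.natCast_ne_zero.2 (Nat.factorial_ne_zero _))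
  obtain ⟨w, hw, hw'⟩ := (Int.finiteMultiplicity_iff (a := (ℓ : ℤ)).2
    ⟨by simpa using hℓ.one_lt.ne', hw0⟩).exists_eq_pow_mul_and_not_dvd
  set v := multiplicity (ℓ : ℤ) (A * n₀.factorial) with hv
  have hv0 : n₀ / ℓ ≤ v := by
    by_contra hlt
    apply hw'
    have h1 : (ℓ : ℤ) ^ (v + 1) ∣ A * n₀.factorial := by
      refine Dvd.dvd.mul_left ?_ _
      have := (pow_dvd_pow ℓ (show v + 1 ≤ n₀ / ℓ by omega)).trans
        (pow_div_dvd_factorial ℓ n₀ hℓ.pos)
      exact_mod_cast this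
    rw [hw, pow_succ] at h1
    exact (mul_dvd_mul_iff_left (pow_ne_zero _ (Int.natCast_ne_zero.2 hℓ.ne_zero))).1 h1
  have hnv : n₀ < 2 * ℓ * v := by
    have h1 := Nat.lt_mul_div_succ n₀ hℓ.pos
    have h2 : 1 ≤ n₀ / ℓ := (Nat.le_div_iff_mul_le hℓ.pos).2 (by omega)
    have h3 : ℓ * (n₀ / ℓ + 1) ≤ ℓ * (2 * v) := Nat.mul_le_mul_left _ (by omega)
    nlinarith
  have hres := h k (6 * ℓ * d * k * lam + 1) hk (by omega) ?_ x (fun i => (Q i : ℤ)) w v hw' ?_
    hxt ?_ ?_ (lam * H) (3 * lam * n₀) ?_ ?_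
  · rcases hres with h1 | h1
    · have h2 : 8 * ℓ * β * e * (k * M) ≤ n₀ :=
        (Nat.mul_le_mul_right _ (by omega)).trans hc2
      have h3 : 8 * ℓ * e * lam * (k * M) * H ≤ n₀ :=
        (Nat.mul_le_mul_right _ (Nat.mul_le_mul_right _
          (Nat.mul_le_mul_right _ (by omega)))).trans hc1
      have h4 : (β + lam * H) * (e * ((k + 1) * M)) ≤ (β + lam * H) * (e * ((2 * k) * M)) := by
        gcongr; omega
      have h5 : 2 * ℓ * v ≤ 2 * ℓ * ((β + lam * H) * (e * ((2 * k) * M))) :=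
        Nat.mul_le_mul_left _ (h1.trans h4)
      have h6 : 2 * (2 * ℓ * ((β + lam * H) * (e * ((2 * k) * M))))
          = 8 * ℓ * β * e * (k * M) + 8 * ℓ * e * lam * (k * M) * H := by ring
      omega
    · rw [Nat.add_sub_cancel] at h1
      have h2 : 3 * lam * (d * k) * n₀ < 3 * lam * (d * k) * (2 * ℓ * v) :=
        Nat.mul_lt_mul_of_pos_left hnv
          (Nat.mul_pos (by omega) (Nat.mul_pos (by omega) hk))
      nlinarith
  · refine le_trans ?_ hM
    have h1 : 1 ≤ k * lam := Nat.mul_pos hk hlam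
    calc 2 * ((6 * ℓ * d * k * lam + 1) * e ^ 2)
        ≤ 2 * ((6 * ℓ * d * k * lam + k * lam) * e ^ 2) := by gcongr
      _ = (2 * e ^ 2 * (6 * ℓ * d + 1)) * k * lam := by ring
      _ ≤ c * k * lam := by gcongr; omega
  · intro i
    rw [hx i, ← hw, ← hQf i]
    push_cast
    ring
  · intro i h0
    have h1 : Q i = 0 := by exact_mod_cast h0
    have := hQf i
    rw [h1, mul_zero] at this
    exact Nat.factorial_ne_zero _ this.symm
  · intro i
    obtain ⟨p, hp, hpD, hp'⟩ := exists_prime_chain D hD (n i) (by have := hle i; omega)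
    refine ⟨p, hp, hpD, fun j hj => ?_⟩
    have h1 : n i < n j := hmono hj
    have h2 : D.natAbs ∣ n j - n i := (Nat.modEq_iff_dvd' h1.le).1 (hcong i j)
    have h3 := Nat.le_of_dvd (by omega) h2
    have h4 := hp' (n j) (by omega)
    rw [← hQf i, ← hQf j, mul_assoc] at h4
    exact_mod_cast Nat.dvd_of_mul_dvd_mul_left (Nat.factorial_pos _) h4
  · intro i
    have h1 : Q i ≤ 2 ^ (lam * H) := by
      calc Q i ≤ (n₀ + (n i - n₀)) ^ (n i - n₀) := Nat.ascFactorial_le_pow_add _ _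
        _ ≤ (2 ^ lam) ^ (n i - n₀) := by
            rw [Nat.add_sub_cancel' (hle i)]
            exact Nat.pow_le_pow_left (hN i).le _
        _ ≤ (2 ^ lam) ^ H := Nat.pow_le_pow_right (by positivity) (by have := hH i; omega)
        _ = _ := by rw [← pow_mul]
    rw [Nat.abs_cast]
    exact_mod_cast h1
  · intro i
    have hf1 : n i ≤ (n i).factorial := Nat.self_le_factorial _
    have hA1 : 1 ≤ A.natAbs := Int.natAbs_pos.2 hA
    have h1 : x i ∣ A * (n i).factorial - P.eval 0 := by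
      have := Polynomial.sub_dvd_eval_sub (x i) 0 P
      rwa [sub_zero, hx i] at this
    have h2 : A * (n i).factorial - P.eval 0 ≠ 0 := by
      intro h0
      have h3 := congrArg Int.natAbs (sub_eq_zero.1 h0)
      rw [Int.natAbs_mul, Int.natAbs_natCast] at h3
      have h4 : (n i).factorial ≤ A.natAbs * (n i).factorial := Nat.le_mul_of_pos_left _ hA1
      have := hle i
      omega
    have h3 : (x i).natAbs ≤ a * (n i).factorial := by
      have h4 := Int.natAbs_le_of_dvd_ne_zero h1 h2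
      have h5 := Int.natAbs_sub_le (A * (n i).factorial) (P.eval 0)
      rw [Int.natAbs_mul, Int.natAbs_natCast] at h5
      have h6 : (P.eval 0).natAbs ≤ (P.eval 0).natAbs * (n i).factorial :=
        Nat.le_mul_of_pos_right _ (Nat.factorial_pos _)
      rw [ha, add_mul, add_mul]
      omega
    have h4 : (n i).factorial ≤ 2 ^ (2 * lam * n₀) := by
      calc (n i).factorial ≤ (n i) ^ (n i) := Nat.factorial_le_pow _
        _ ≤ (2 ^ lam) ^ (n i) := Nat.pow_le_pow_left (hN i).le _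
        _ ≤ (2 ^ lam) ^ (2 * n₀) :=
            Nat.pow_le_pow_right (by positivity) (by have := hH i; omega)
        _ = _ := by rw [← pow_mul]; congr 1; ring
    have h5 : a ≤ 2 ^ (lam * n₀) := by
      have h6 : n₀ < 2 ^ n₀ := Nat.lt_two_pow_self
      have h7 : 2 ^ n₀ ≤ 2 ^ (lam * n₀) :=
        Nat.pow_le_pow_right (by omega) (Nat.le_mul_of_pos_left _ hlam)
      omega
    have h6 : (x i).natAbs ≤ 2 ^ (3 * lam * n₀) := by
      calc _ ≤ a * (n i).factorial := h3
        _ ≤ 2 ^ (lam * n₀) * 2 ^ (2 * lam * n₀) := Nat.mul_le_mul h5 h4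
        _ = _ := by rw [← pow_add]; congr 1; ring
    rw [← Int.natCast_natAbs]
    exact_mod_cast h6

end Pool.Agent.MP_57a821_nt

end

-- part MP_57a821_nt.Count
section

/-! Counting the solutions of `P(x) = A * n!` with `n ≤ N`. -/

set_option autoImplicit false

namespace Pool.Agent.MP_57a821_nt

open Finset

/-- The bound in integer form. -/
def bnd (N : ℕ) : ℕ := ((Nat.log 2 N + 1) * (Nat.log 2 (Nat.log 2 N + 1) + 1)) ^ 3

theorem one_le_bnd (N : ℕ) : 1 ≤ bnd N := Nat.one_le_pow _ _ (by positivity)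

theorem exists_k (c d : ℕ) (hc : 0 < c) (hd : 2 ≤ d) (lam : ℕ) (hlam : 0 < lam) :
    ∃ k, 0 < k ∧ c * k * lam ≤ d ^ k ∧ d ^ k ≤ d * (c * k * lam) ∧
      k ≤ 2 * (c + 1) * (Nat.log 2 lam + 1) := by
  classical
  set μ := Nat.log 2 lam + 1 with hμ
  have h0 : 0 < 2 * (μ + c) ∧ c * (2 * (μ + c)) * lam ≤ d ^ (2 * (μ + c)) := by
    refine ⟨by omega, ?_⟩
    have h1 : lam < 2 ^ μ := Nat.lt_pow_succ_log_self one_lt_two lam
    have h2 : c < 2 ^ c := Nat.lt_two_pow_self
    have h3 : 2 * (μ + c) ≤ 2 ^ (μ + c) := by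
      obtain ⟨s, hs⟩ : ∃ s, μ + c = s + 1 := ⟨μ + c - 1, by omega⟩
      rw [hs, pow_succ, mul_comm]
      exact Nat.mul_le_mul_right _ Nat.lt_two_pow_self
    calc c * (2 * (μ + c)) * lam ≤ 2 ^ c * 2 ^ (μ + c) * 2 ^ μ := by gcongr
      _ = 2 ^ (2 * (μ + c)) := by rw [← pow_add, ← pow_add]; congr 1; ring
      _ ≤ _ := Nat.pow_le_pow_left hd _
  have hex : ∃ k, 0 < k ∧ c * k * lam ≤ d ^ k := ⟨_, h0⟩
  obtain ⟨hk0, hk⟩ := Nat.find_spec hex
  have hk1 : Nat.find hex ≤ 2 * (μ + c) := Nat.find_min' hex h0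
  refine ⟨Nat.find hex, hk0, hk, ?_, by nlinarith⟩
  obtain ⟨s, hs⟩ : ∃ s, Nat.find hex = s + 1 := ⟨Nat.find hex - 1, by omega⟩
  have hmin := Nat.find_min hex (show s < Nat.find hex by omega)
  rw [hs, pow_succ, mul_comm]
  refine Nat.mul_le_mul_left _ ?_
  rcases Nat.eq_zero_or_pos s with rfl | hs0
  · rw [pow_zero, zero_add, mul_one]
    exact Nat.mul_pos hc hlam
  · have : d ^ s < c * s * lam := not_le.1 fun h => hmin ⟨hs0, h⟩
    have h2 : c * s * lam ≤ c * (s + 1) * lam := by gcongr; omega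
    omega

theorem count_of_no_cluster (S : ℕ → Prop) [DecidablePred S] (c d K : ℕ) (hc : 0 < c)
    (hd : 2 ≤ d) (hK : 0 < K)
    (h : ∀ (lam k : ℕ) (hk : 0 < k), 0 < lam → c * k * lam ≤ d ^ k →
      ∀ n : Fin k → ℕ, StrictMono n → (∀ i, S (n i)) →
      (∀ i j, n i % K = n j % K) → (∀ i, n i < 2 ^ lam) →
      ∀ H : ℕ, (∀ i, n i ≤ n ⟨0, hk⟩ + H) →
      c * lam * (k * d ^ k) * H ≤ n ⟨0, hk⟩ → c * (k * d ^ k) ≤ n ⟨0, hk⟩ → False) :
    ∃ C : ℕ, ∀ N, ((range (N + 1)).filter S).card ≤ C * bnd N := by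
  classical
  refine ⟨3 * K * d * c ^ 2 * (2 * (c + 1)) ^ 3, fun N => ?_⟩
  set lam := Nat.log 2 N + 1 with hlam
  obtain ⟨k, hk, hk1, hk2, hk3⟩ := exists_k c d hc hd lam (by omega)
  set μ := Nat.log 2 lam + 1 with hμ
  set M := d ^ k with hM
  have hM0 : 0 < M := pow_pos (by omega) _
  set Λ := c * lam * (k * M) with hΛ
  have hΛ0 : 0 < Λ := by positivity
  have hmΛ : c * (k * M) ≤ Λ := by
    rw [hΛ]; gcongr; exact Nat.le_mul_of_pos_right _ (by omega)
  set T := ((range (N + 1)).filter S).filter fun n => Λ ≤ n with hT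
  have h1 : ((range (N + 1)).filter S).card ≤ Λ + T.card := by
    calc _ ≤ (range Λ ∪ T).card := by
          refine card_le_card fun n hn => ?_
          rw [mem_union, mem_range, hT, mem_filter]
          by_cases h : n < Λ
          · exact Or.inl h
          · exact Or.inr ⟨hn, not_lt.1 h⟩
      _ ≤ _ := (card_union_le _ _).trans (by rw [card_range])
  have hNl : N < 2 ^ lam := Nat.lt_pow_succ_log_self one_lt_two N
  set f : ℕ → ℕ × ℕ × ℕ := fun n => (Nat.log 2 n, n * Λ / 2 ^ Nat.log 2 n, n % K) with hf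
  have h2 : T.card ≤ k * (range lam ×ˢ range (2 * Λ) ×ˢ range K).card := by
    refine card_le_mul_card_image_of_maps_to (f := f) ?_ k ?_
    · intro n hn
      simp only [hT, mem_filter, mem_range] at hn
      simp only [hf, mem_product, mem_range]
      refine ⟨?_, ?_, Nat.mod_lt _ hK⟩
      · have := Nat.log_mono_right (b := 2) (show n ≤ N by omega)
        omega
      · rw [Nat.div_lt_iff_lt_mul (by positivity)]
        have := Nat.lt_pow_succ_log_self one_lt_two n
        rw [Nat.succ_eq_add_one, pow_succ] at this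
        nlinarith
    · intro y _
      by_contra hlt
      set F := T.filter fun a => f a = y with hF
      have hle : k ≤ F.card := (not_le.1 hlt).le
      set n := F.orderEmbOfCardLe hle with hn
      have hmem : ∀ i, (n i ≤ N ∧ S (n i)) ∧ Λ ≤ n i ∧ f (n i) = y := fun i => by
        have := F.orderEmbOfCardLe_mem hle i
        simp only [hF, hT, mem_filter, mem_range] at this
        exact ⟨⟨Nat.lt_succ_iff.1 this.1.1.1, this.1.1.2⟩, this.1.2, this.2⟩
      have hff : ∀ i j, f (n i) = f (n j) := fun i j => (hmem i).2.2.trans (hmem j).2.2.symm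
      set n₀ := n ⟨0, hk⟩ with hn₀
      refine h lam k hk (by omega) hk1 n n.strictMono (fun i => (hmem i).1.2)
        (fun i j => congrArg (fun z => z.2.2) (hff i j))
        (fun i => lt_of_le_of_lt (hmem i).1.1 hNl) (n₀ / Λ) (fun i => ?_)
        (Nat.mul_div_le _ _) (hmΛ.trans (hmem _).2.1)
      have e1 : Nat.log 2 (n i) = Nat.log 2 n₀ := congrArg (fun z => z.1) (hff i ⟨0, hk⟩)
      have e2 : n i * Λ / 2 ^ Nat.log 2 (n i) = n₀ * Λ / 2 ^ Nat.log 2 n₀ :=
        congrArg (fun z => z.2.1) (hff i ⟨0, hk⟩)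
      rw [e1] at e2
      have hp : 0 < 2 ^ Nat.log 2 n₀ := by positivity
      have e3 := Nat.lt_mul_div_succ (n i * Λ) hp
      have e4 := Nat.mul_div_le (n₀ * Λ) (2 ^ Nat.log 2 n₀)
      have e5 : 2 ^ Nat.log 2 n₀ ≤ n₀ :=
        Nat.pow_log_le_self 2 (by have := (hmem ⟨0, hk⟩).2.1; omega)
      rw [e2, mul_add, mul_one] at e3
      have e6 : n i - n₀ ≤ n₀ / Λ := by
        rw [Nat.le_div_iff_mul_le hΛ0, Nat.sub_mul]
        omega
      change n i ≤ n₀ + n₀ / Λ
      omega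
  simp only [card_product, card_range] at h2
  have h3 : Λ ≤ d * c ^ 2 * (k * lam) ^ 2 := by
    calc Λ ≤ c * lam * (k * (d * (c * k * lam))) := by rw [hΛ]; gcongr
      _ = _ := by ring
  have h4 : 1 ≤ K * (k * lam) := Nat.mul_pos hK (Nat.mul_pos hk (by omega))
  calc _ ≤ Λ + k * (lam * (2 * Λ * K)) := h1.trans (by omega)
    _ ≤ Λ * (K * (k * lam)) + k * (lam * (2 * Λ * K)) := by
        gcongr; exact Nat.le_mul_of_pos_right _ h4
    _ = 3 * K * (k * lam) * Λ := by ring
    _ ≤ 3 * K * (k * lam) * (d * c ^ 2 * (k * lam) ^ 2) := by gcongr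
    _ = 3 * K * d * c ^ 2 * (k * lam) ^ 3 := by ring
    _ ≤ 3 * K * d * c ^ 2 * (2 * (c + 1) * μ * lam) ^ 3 := by gcongr
    _ = _ := by rw [bnd, ← hlam, ← hμ]; ring

theorem exists_bezout (P : Polynomial ℤ) (hs : (P.map (Int.castRingHom ℚ)).Separable) :
    ∃ (U V : Polynomial ℤ) (D : ℤ), D ≠ 0 ∧ U * P + V * P.derivative = Polynomial.C D := by
  obtain ⟨u, v, huv⟩ := hs
  obtain ⟨a, ha, hu⟩ := IsLocalization.integerNormalization_spec (nonZeroDivisors ℤ) u
  obtain ⟨b, hb, hv⟩ := IsLocalization.integerNormalization_spec (nonZeroDivisors ℤ) v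
  refine ⟨Polynomial.C b * IsLocalization.integerNormalization (nonZeroDivisors ℤ) u,
    Polynomial.C a * IsLocalization.integerNormalization (nonZeroDivisors ℤ) v, a * b,
    mul_ne_zero (nonZeroDivisors.ne_zero ha) (nonZeroDivisors.ne_zero hb), ?_⟩
  apply Polynomial.map_injective (Int.castRingHom ℚ) (RingHom.injective_int _)
  rw [algebraMap_int_eq] at hu hv
  rw [Polynomial.derivative_map] at huv
  simp only [Polynomial.map_add, Polynomial.map_mul, hu, hv, map_mul,
    zsmul_eq_mul, eq_intCast, Polynomial.map_intCast]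
  linear_combination (a : Polynomial ℚ) * (b : Polynomial ℚ) * huv

open Classical in
theorem count_monic (P : Polynomial ℤ) (hP : P.Monic) (hd : 2 ≤ P.natDegree)
    (hs : (P.map (Int.castRingHom ℚ)).Separable) (A : ℤ) (hA : A ≠ 0) :
    ∃ C : ℕ, ∀ N, ((range (N + 1)).filter
      fun n => ∃ x : ℤ, P.eval x = A * n.factorial).card ≤ C * bnd N := by
  obtain ⟨U, V, D, hD, hB⟩ := exists_bezout P hs
  obtain ⟨ℓ, hℓD, hℓ⟩ := Nat.exists_infinite_primes (D.natAbs + 1)
  have hℓD' : ¬ (ℓ : ℤ) ∣ D := fun h => by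
    have := Nat.le_of_dvd (Int.natAbs_pos.2 hD) (Int.natCast_dvd.1 h)
    omega
  have hcl : ∀ t : ℕ, ∃ C : ℕ, ∀ N, ((range (N + 1)).filter
      fun n => ∃ x : ℤ, P.eval x = A * n.factorial ∧ (ℓ : ℤ) ∣ x - t).card ≤ C * bnd N := by
    intro t
    by_cases ht : (ℓ : ℤ) ∣ P.eval (t : ℤ)
    · obtain ⟨c, hc, h⟩ := no_cluster P U V hP hd D hD hB ℓ hℓ hℓD' t ht A hA
      exact count_of_no_cluster _ c _ D.natAbs hc hd (Int.natAbs_pos.2 hD) h
    · refine ⟨ℓ, fun N => ?_⟩
      calc _ ≤ (range ℓ).card := by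
            refine card_le_card fun n hn => ?_
            obtain ⟨-, x, hx, hxt⟩ := mem_filter.1 hn
            rw [mem_range]
            by_contra hn'
            apply ht
            have h1 : (ℓ : ℤ) ∣ P.eval x := by
              rw [hx]
              exact Dvd.dvd.mul_left
                (Int.natCast_dvd_natCast.2 (Nat.dvd_factorial hℓ.pos (not_lt.1 hn'))) _
            have h2 := dvd_sub h1 (hxt.trans (Polynomial.sub_dvd_eval_sub x t P))
            rwa [sub_sub_cancel] at h2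
        _ ≤ _ := by rw [card_range]; exact Nat.le_mul_of_pos_right _ (one_le_bnd N)
  choose C hC using hcl
  refine ⟨∑ t ∈ range ℓ, C t, fun N => ?_⟩
  rw [sum_mul]
  refine le_trans ?_ (sum_le_sum fun t _ => hC t N)
  refine le_trans (card_le_card ?_) card_biUnion_le
  intro n hn
  obtain ⟨hn, x, hx⟩ := mem_filter.1 hn
  have hℓ0 : (0 : ℤ) < ℓ := by exact_mod_cast hℓ.pos
  have h1 := Int.emod_nonneg x hℓ0.ne'
  have h2 := Int.emod_lt_of_pos x hℓ0
  refine mem_biUnion.2 ⟨(x % ℓ).toNat, mem_range.2 (by omega), mem_filter.2 ⟨hn, x, hx, ?_⟩⟩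
  rw [Int.toNat_of_nonneg h1]
  exact ⟨x / ℓ, by rw [Int.emod_def]; ring⟩

theorem separable_integralNormalization (P : Polynomial ℤ) (hd : 1 ≤ P.natDegree)
    (hs : (P.map (Int.castRingHom ℚ)).Separable) :
    (P.integralNormalization.map (Int.castRingHom ℚ)).Separable := by
  have hP0 : P ≠ 0 := by rintro rfl; simp at hd
  set a : ℚ := (P.leadingCoeff : ℚ) with ha
  have ha0 : a ≠ 0 := Int.cast_ne_zero.2 (Polynomial.leadingCoeff_ne_zero.2 hP0)
  set l : Polynomial ℚ := Polynomial.C a⁻¹ * Polynomial.X with hl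
  have e : P.integralNormalization.map (Int.castRingHom ℚ) =
      Polynomial.C (a ^ (P.natDegree - 1)) * (P.map (Int.castRingHom ℚ)).comp l := by
    apply Polynomial.funext
    intro y
    have := Polynomial.integralNormalization_eval₂_leadingCoeff_mul hd (Int.castRingHom ℚ) (a⁻¹ * y)
    simp only [eq_intCast, ← ha] at this
    rw [mul_inv_cancel_left₀ ha0] at this
    rw [Polynomial.eval_map, this, Polynomial.eval_mul, Polynomial.eval_C, Polynomial.eval_comp,
      Polynomial.eval_map, hl]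
    simp
  rw [e]
  have h1 := IsCoprime.map hs (Polynomial.compRingHom l)
  simp only [Polynomial.coe_compRingHom_apply] at h1
  have hu : IsUnit (Polynomial.C (a ^ (P.natDegree - 1))) :=
    Polynomial.isUnit_C.2 (IsUnit.mk0 _ (pow_ne_zero _ ha0))
  have hu' : IsUnit (Polynomial.C a⁻¹) := Polynomial.isUnit_C.2 (IsUnit.mk0 _ (inv_ne_zero ha0))
  rw [Polynomial.separable_def, Polynomial.derivative_C_mul, isCoprime_mul_unit_left hu,
    Polynomial.derivative_comp]
  have : Polynomial.derivative l = Polynomial.C a⁻¹ := by rw [hl]; simp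
  rw [this, isCoprime_mul_unit_left_right hu']
  exact h1

open Classical in
theorem count_general (P : Polynomial ℤ) (hd : 2 ≤ P.natDegree)
    (hs : Squarefree (P.map (Int.castRingHom ℚ))) (A : ℤ) (hA : A ≠ 0) :
    ∃ C : ℕ, ∀ N, ((range (N + 1)).filter
      fun n => ∃ x : ℤ, P.eval x = A * n.factorial).card ≤ C * bnd N := by
  have hP0 : P ≠ 0 := by rintro rfl; simp at hd
  obtain ⟨C, hC⟩ := count_monic P.integralNormalization (Polynomial.monic_integralNormalization hP0)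
    (by rwa [Polynomial.natDegree_integralNormalization])
    (separable_integralNormalization P (by omega) (PerfectField.separable_iff_squarefree.2 hs))
    (P.leadingCoeff ^ (P.natDegree - 1) * A)
    (mul_ne_zero (pow_ne_zero _ (Polynomial.leadingCoeff_ne_zero.2 hP0)) hA)
  refine ⟨C, fun N => le_trans (card_le_card fun n hn => ?_) (hC N)⟩
  obtain ⟨hn, x, hx⟩ := mem_filter.1 hn
  refine mem_filter.2 ⟨hn, P.leadingCoeff * x, ?_⟩
  have := Polynomial.integralNormalization_eval₂_leadingCoeff_mul (p := P) (by omega)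
    (RingHom.id ℤ) x
  simp only [RingHom.id_apply, Polynomial.eval₂_id] at this
  rw [this, hx, mul_assoc]

theorem bnd_le (N : ℕ) (hN : 16 ≤ N) :
    (bnd N : ℝ) ≤ 15 ^ 3 * (Real.log N * Real.log (Real.log N)) ^ 3 := by
  have hl2 : (0.69 : ℝ) < Real.log 2 := lt_trans (by norm_num) Real.log_two_gt_d9
  have hl2' : Real.log 2 < 0.7 := lt_trans Real.log_two_lt_d9 (by norm_num)
  have hN' : (16 : ℝ) ≤ N := by exact_mod_cast hN
  have h1 : 4 * Real.log 2 ≤ Real.log N := by
    have : Real.log 16 = 4 * Real.log 2 := by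
      rw [show (16 : ℝ) = 2 ^ 4 by norm_num, Real.log_pow]; norm_num
    rw [← this]
    exact Real.log_le_log (by norm_num) hN'
  have h2 : 1 ≤ Real.log (Real.log N) := by
    rw [Real.le_log_iff_exp_le (by linarith)]
    have := Real.exp_one_lt_d9
    linarith
  have key : ∀ m : ℕ, (Nat.log 2 m : ℝ) * Real.log 2 ≤ Real.log m := by
    intro m
    have := Real.natLog_le_logb m 2
    rw [Real.logb, le_div_iff₀ (by simpa using (by linarith : 0 < Real.log 2))] at this
    simpa using this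
  set lam := Nat.log 2 N + 1 with hlam
  have h3 : (lam : ℝ) ≤ 2 * Real.log N := by
    have := key N
    have h0 : (0 : ℝ) ≤ Nat.log 2 N := Nat.cast_nonneg _
    rw [hlam]
    push_cast
    nlinarith
  have h4 : ((Nat.log 2 lam + 1 : ℕ) : ℝ) ≤ 4 * Real.log (Real.log N) := by
    have h5 := key lam
    have h6 : Real.log lam ≤ Real.log 2 + Real.log (Real.log N) := by
      rw [← Real.log_mul (by norm_num) (by linarith)]
      exact Real.log_le_log (by rw [hlam]; positivity) h3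
    have h0 : (0 : ℝ) ≤ Nat.log 2 lam := Nat.cast_nonneg _
    push_cast
    nlinarith
  rw [bnd, ← hlam, Nat.cast_pow, Nat.cast_mul, ← mul_pow]
  refine pow_le_pow_left₀ (by positivity) ?_ 3
  calc (lam : ℝ) * ((Nat.log 2 lam + 1 : ℕ) : ℝ)
      ≤ (2 * Real.log N) * (4 * Real.log (Real.log N)) :=
        mul_le_mul h3 h4 (Nat.cast_nonneg _) (by linarith)
    _ ≤ _ := by nlinarith [mul_nonneg (by linarith : 0 ≤ Real.log N) (by linarith : 0 ≤ Real.log (Real.log N))]

theorem count_real (P : Polynomial ℤ) (hd : 2 ≤ P.natDegree)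
    (hs : Squarefree (P.map (Int.castRingHom ℚ))) (A : ℤ) (hA : A ≠ 0) :
    ∃ C : ℝ, ∀ N : ℕ, 16 ≤ N →
      (({n : ℕ | n ≤ N ∧ ∃ x : ℤ, P.eval x = A * n.factorial}.ncard : ℕ) : ℝ)
        ≤ C * (Real.log N * Real.log (Real.log N)) ^ 3 := by
  classical
  obtain ⟨C, hC⟩ := count_general P hd hs A hA
  refine ⟨C * 15 ^ 3, fun N hN => ?_⟩
  have e : {n : ℕ | n ≤ N ∧ ∃ x : ℤ, P.eval x = A * n.factorial} = ((range (N + 1)).filter
      fun n => ∃ x : ℤ, P.eval x = A * n.factorial : Finset ℕ) := by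
    ext n
    simp
  rw [e, Set.ncard_coe_finset, mul_assoc]
  have h1 : (((range (N + 1)).filter
      fun n => ∃ x : ℤ, P.eval x = A * n.factorial).card : ℝ) ≤ C * bnd N := by
    exact_mod_cast hC N
  exact h1.trans (mul_le_mul_of_nonneg_left (bnd_le N hN) (Nat.cast_nonneg _))

end Pool.Agent.MP_57a821_nt

end
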